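import Mathlib

/-!
Definitions for the problem MP_31941f_co (true complexity of polynomial progressions).
-/

namespace Pool.Agent.Work.MP_31941f_co

open Polynomial

/-- The average `p^(-k-1) * sum over x, h of the product over omega in {0,1}^k of
`C^|omega| f (x + omega . h)`, i.e. the `2^k`-th power of the Gowers `U^k` norm. -/
noncomputable def gowersAvg (p : ℕ) [Fact p.Prime] (k : ℕ) (f : ZMod p → ℂ) : ℂ :=
  ((p : ℂ) ^ (k + 1))⁻¹ * ∑ x : ZMod p, ∑ h : Fin k → ZMod p, ∏ ω : Fin k → Fin 2,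
    (starRingEnd ℂ)^[∑ j, (ω j : ℕ)] (f (x + ∑ j, ((ω j : ℕ) : ZMod p) * h j))

/-- The Gowers uniformity norm `U^k` (the average is a nonnegative real number for `k ≥ 1`). -/
noncomputable def gowersNorm (p : ℕ) [Fact p.Prime] (k : ℕ) (f : ZMod p → ℂ) : ℝ :=
  ‖gowersAvg p k f‖ ^ ((1 : ℝ) / 2 ^ k)

/-- The polynomials `P_0 = 0, P_1, ..., P_m`. -/
noncomputable def withZero {m : ℕ} (P : Fin m → ℤ[X]) : Fin (m + 1) → ℤ[X] := Fin.cons 0 P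

/-- The counting operator `Lambda_p (g_0, ..., g_m)`. -/
noncomputable def countOp (p : ℕ) [Fact p.Prime] {m : ℕ} (P : Fin m → ℤ[X])
    (g : Fin (m + 1) → ZMod p → ℂ) : ℂ :=
  ((p : ℂ) ^ 2)⁻¹ * ∑ x : ZMod p, ∑ y : ZMod p, ∏ j, g j (x + aeval y (withZero P j))

/-- Property `(star)` of `s` at the index `i` (here `p₀` is even allowed to depend on `ε`). -/
def Star {m : ℕ} (P : Fin m → ℤ[X]) (i : Fin (m + 1)) (s : ℕ) : Prop :=
  ∀ ε : ℝ, 0 < ε → ∃ δ : ℝ, 0 < δ ∧ ∃ p₀ : ℕ, ∀ (p : ℕ) [Fact p.Prime], p₀ < p →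
    ∀ g : Fin (m + 1) → ZMod p → ℂ, (∀ j x, ‖g j x‖ ≤ 1) →
      gowersNorm p (s + 1) (g i) < δ → ‖countOp p P g‖ < ε

/-- `(Q_0, ..., Q_m)` is an algebraic relation: `sum_j Q_j (x + P_j (y)) = 0` in `ℤ[x, y]`. -/
def IsRelation {m : ℕ} (P : Fin m → ℤ[X]) (Q : Fin (m + 1) → ℤ[X]) : Prop :=
  ∑ j, aeval (MvPolynomial.X 0 + aeval (MvPolynomial.X 1) (withZero P j) :
    MvPolynomial (Fin 2) ℤ) (Q j) = 0

/-- Every algebraic relation has `deg Q_i ≤ s`. -/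
def AlgBound {m : ℕ} (P : Fin m → ℤ[X]) (i : Fin (m + 1)) (s : ℕ) : Prop :=
  ∀ Q : Fin (m + 1) → ℤ[X], IsRelation P Q → (Q i).natDegree ≤ s

/-- The polynomials `y, 2y, 3y, 4y, y^3 - 2y^2, y^3 + 2y, y^3 + 2y^2`. -/
noncomputable def exP : Fin 7 → ℤ[X] :=
  ![X, 2 * X, 3 * X, 4 * X, X ^ 3 - 2 * X ^ 2, X ^ 3 + 2 * X, X ^ 3 + 2 * X ^ 2]

end Pool.Agent.Work.MP_31941f_co
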