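import Mathlib
import Pool.Agent.Work.MP_31941f_co.Defs

-- merged part: Pool.Agent.Work.MP_31941f_co.Phase
section
-- merged part: Pool.Agent.Work.MP_31941f_co.Kronecker
section
/-!
A quantitative inhomogeneous Kronecker theorem in `ZMod p`, through the Fejer kernel.
-/

namespace Pool.Agent.Work.MP_31941f_co

open Finset

section
variable {N : ℕ} [NeZero N]

theorem norm_char (t : ZMod N) : ‖(ZMod.stdAddChar t : ℂ)‖ = 1 := by
  rw [ZMod.stdAddChar_apply]; simp

theorem conj_char (t : ZMod N) :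
    (starRingEnd ℂ) (ZMod.stdAddChar t : ℂ) = ZMod.stdAddChar (-t) := by
  rw [AddChar.map_neg_eq_inv, Complex.inv_def, Complex.normSq_eq_norm_sq, norm_char]
  simp

theorem sum_char (b : ZMod N) :
    ∑ x : ZMod N, (ZMod.stdAddChar (x * b) : ℂ) = if b = 0 then (N : ℂ) else 0 := by
  have := AddChar.sum_mulShift b (ZMod.isPrimitive_stdAddChar N)
  rw [this, ZMod.card]
  split_ifs <;> simp

theorem orth {ι : Type*} [Fintype ι] [DecidableEq ι] (ξ : ι → ZMod N)
    (hξ : Function.Injective ξ) (C : ι → ℂ) :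
    ∑ B : ZMod N, ‖∑ j, C j * ZMod.stdAddChar (B * ξ j)‖ ^ 2 = N * ∑ j, ‖C j‖ ^ 2 := by
  have key : ∑ B : ZMod N, ((‖∑ j, C j * ZMod.stdAddChar (B * ξ j)‖ : ℂ)) ^ 2 =
      N * ∑ j, (‖C j‖ : ℂ) ^ 2 := by
    simp_rw [← Complex.mul_conj', map_sum, Finset.sum_mul_sum]
    rw [Finset.sum_comm, Finset.mul_sum]
    refine Finset.sum_congr rfl fun j _ => ?_
    rw [Finset.sum_comm]
    have h1 : ∀ j' : ι, ∑ B : ZMod N, C j * ZMod.stdAddChar (B * ξ j) *
        (starRingEnd ℂ) (C j' * ZMod.stdAddChar (B * ξ j')) =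
        if j' = j then (N : ℂ) * (C j * (starRingEnd ℂ) (C j)) else 0 := by
      intro j'
      have h2 : ∀ B : ZMod N, C j * ZMod.stdAddChar (B * ξ j) *
          (starRingEnd ℂ) (C j' * ZMod.stdAddChar (B * ξ j')) =
          (C j * (starRingEnd ℂ) (C j')) * ZMod.stdAddChar (B * (ξ j - ξ j')) := by
        intro B
        rw [map_mul (starRingEnd ℂ), conj_char, mul_sub, sub_eq_add_neg, AddChar.map_add_eq_mul]
        ring
      simp_rw [h2]
      rw [← Finset.mul_sum, sum_char]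
      by_cases hj : j' = j
      · subst hj; simp [mul_comm]
      · have : ξ j - ξ j' ≠ 0 := fun h => hj (hξ (sub_eq_zero.1 h)).symm
        simp [hj, this]
    simp_rw [h1]
    simp
  exact_mod_cast key

theorem parseval {M : Type*} [Fintype M] [DecidableEq M] (w : M → ZMod N) (R : ℕ)
    (hw : ∀ j j' : M → Fin (R + 1),
      ∑ μ, ((j μ : ℕ) : ZMod N) * w μ = ∑ μ, ((j' μ : ℕ) : ZMod N) * w μ → j = j')
    (a : M → ZMod N) (c : M → Fin (R + 1) → ℂ) :
    ∑ B : ZMod N, ‖∏ μ, ∑ j : Fin (R + 1),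
        c μ j * (ZMod.stdAddChar (B * w μ - a μ) : ℂ) ^ (j : ℕ)‖ ^ 2 =
      N * ∏ μ, ∑ j, ‖c μ j‖ ^ 2 := by
  have h1 : ∀ B : ZMod N, ∏ μ, ∑ j : Fin (R + 1),
      c μ j * (ZMod.stdAddChar (B * w μ - a μ) : ℂ) ^ (j : ℕ) =
      ∑ j : M → Fin (R + 1), ((∏ μ, c μ (j μ)) *
        ZMod.stdAddChar (-∑ μ, ((j μ : ℕ) : ZMod N) * a μ)) *
        ZMod.stdAddChar (B * ∑ μ, ((j μ : ℕ) : ZMod N) * w μ) := by
    intro B
    rw [Finset.prod_univ_sum, Fintype.piFinset_univ]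
    refine Finset.sum_congr rfl fun j _ => ?_
    rw [Finset.prod_mul_distrib, mul_assoc, ← AddChar.map_add_eq_mul]
    congr 1
    simp_rw [← AddChar.map_nsmul_eq_pow]
    have : ∀ (s : Finset M) (f : M → ZMod N),
        ∏ μ ∈ s, (ZMod.stdAddChar (f μ) : ℂ) = ZMod.stdAddChar (∑ μ ∈ s, f μ) := by
      intro s f
      induction s using Finset.induction_on with
      | empty => simp
      | insert x s hx ih => rw [prod_insert hx, sum_insert hx, ih, AddChar.map_add_eq_mul]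
    rw [this]
    congr 1
    rw [Finset.mul_sum, ← Finset.sum_neg_distrib, ← Finset.sum_add_distrib]
    refine Finset.sum_congr rfl fun μ _ => ?_
    rw [nsmul_eq_mul]; ring
  simp_rw [h1]
  rw [orth _ (fun j j' h => hw j j' h)]
  congr 1
  rw [Finset.prod_univ_sum, Fintype.piFinset_univ]
  refine Finset.sum_congr rfl fun j _ => ?_
  rw [norm_mul, norm_char, mul_one, norm_prod, Finset.prod_pow]

theorem norm_one_sub_char (t : ZMod N) :
    16 * (t.valMinAbs : ℝ) ^ 2 ≤ (N : ℝ) ^ 2 * ‖1 - (ZMod.stdAddChar t : ℂ)‖ ^ 2 := by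
  have hN : (0 : ℝ) < N := by exact_mod_cast Nat.pos_of_ne_zero (NeZero.ne N)
  set η : ℤ := t.valMinAbs with hη
  have ht : t = (η : ZMod N) := (ZMod.coe_valMinAbs t).symm
  have hb := ZMod.valMinAbs_mem_Ioc t
  rw [← hη] at hb
  have hb1 : (-(N : ℝ)) < (η : ℝ) * 2 := by exact_mod_cast hb.1
  have hb2 : (η : ℝ) * 2 ≤ (N : ℝ) := by exact_mod_cast hb.2
  set x : ℝ := 2 * Real.pi * η / N with hx
  have hz : (ZMod.stdAddChar t : ℂ) = Complex.exp (x * Complex.I) := by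
    rw [ht, ZMod.stdAddChar_coe]
    congr 1
    rw [hx]; push_cast; ring
  have hxπ : |x| ≤ Real.pi := by
    rw [hx, abs_le]
    constructor
    · rw [le_div_iff₀ hN]; linarith only [hb1, Real.pi_pos, mul_pos_of_neg_of_neg (Mathlib.Tactic.Linarith.sub_neg_of_lt hb1) (Mathlib.Tactic.Linarith.sub_neg_of_lt Real.pi_pos)]
    · rw [div_le_iff₀ hN]; linarith only [hb2, Real.pi_pos, mul_nonneg_of_nonpos_of_nonpos (Mathlib.Tactic.Linarith.sub_nonpos_of_le hb2) (le_of_lt (Mathlib.Tactic.Linarith.sub_neg_of_lt Real.pi_pos))]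
  have hcos := Real.cos_le_one_sub_mul_cos_sq hxπ
  have hn : ‖1 - (ZMod.stdAddChar t : ℂ)‖ ^ 2 = 2 - 2 * Real.cos x := by
    rw [hz, ← Complex.normSq_eq_norm_sq, Complex.normSq_apply]
    simp only [Complex.sub_re, Complex.one_re, Complex.exp_ofReal_mul_I_re, Complex.sub_im,
      Complex.one_im, Complex.exp_ofReal_mul_I_im]
    nlinarith [Real.sin_sq_add_cos_sq x]
  rw [hn]
  have hπ : Real.pi ≠ 0 := Real.pi_ne_zero
  have hx2 : 2 / Real.pi ^ 2 * x ^ 2 = 8 * (η : ℝ) ^ 2 / N ^ 2 := by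
    rw [hx]; field_simp; ring
  rw [hx2] at hcos
  have : (N : ℝ) ^ 2 * (8 * (η : ℝ) ^ 2 / N ^ 2) = 8 * (η : ℝ) ^ 2 := by field_simp
  linarith only [this, hcos, mul_le_mul_of_nonneg_left hcos (sq_nonneg (N : ℝ)), sq_nonneg ↑N]

theorem kronecker {M : Type*} [Fintype M] [DecidableEq M] (w : M → ZMod N) (R : ℕ) (hR : 1 ≤ R)
    (hw : ∀ j j' : M → Fin (R + 1),
      ∑ μ, ((j μ : ℕ) : ZMod N) * w μ = ∑ μ, ((j' μ : ℕ) : ZMod N) * w μ → j = j')
    (a : M → ZMod N) :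
    ∃ B : ZMod N, ∀ μ, 8 * (R : ℤ) * ((B * w μ - a μ).valMinAbs) ^ 2 ≤
      (Fintype.card M : ℤ) * (N : ℤ) ^ 2 := by
  have hN : (0 : ℝ) < N := by exact_mod_cast Nat.pos_of_ne_zero (NeZero.ne N)
  have hRpos : (0 : ℝ) < R := by exact_mod_cast hR
  set z : M → ZMod N → ℂ := fun μ B => ZMod.stdAddChar (B * w μ - a μ) with hz
  set cD : Fin (R + 1) → ℂ := fun j => if j = Fin.last R then 0 else 1 with hcD
  set cE : Fin (R + 1) → ℂ :=
    fun j => (if j = 0 then 1 else 0) - (if j = Fin.last R then 1 else 0) with hcE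
  have hne : (0 : Fin (R + 1)) ≠ Fin.last R := by
    intro h
    have := congrArg Fin.val h
    simp at this; omega
  have hD : ∀ u : ℂ, ∑ j : Fin (R + 1), cD j * u ^ (j : ℕ) = ∑ i ∈ range R, u ^ i := by
    intro u
    rw [Fin.sum_univ_castSucc, ← Fin.sum_univ_eq_sum_range (fun i => u ^ i)]
    simp [hcD, (Fin.castSucc_lt_last _).ne]
  have hE : ∀ u : ℂ, ∑ j : Fin (R + 1), cE j * u ^ (j : ℕ) =
      (1 - u) * ∑ i ∈ range R, u ^ i := by
    intro u
    rw [mul_neg_geom_sum]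
    simp [hcE, sub_mul, Finset.sum_sub_distrib]
  have hDn : ∑ j, ‖cD j‖ ^ 2 = R := by
    rw [Fin.sum_univ_castSucc]
    simp [hcD, (Fin.castSucc_lt_last _).ne]
  have hEn : ∑ j, ‖cE j‖ ^ 2 = 2 := by
    have : ∀ j, ‖cE j‖ ^ 2 = (if j = 0 then 1 else 0) + (if j = Fin.last R then 1 else 0) := by
      intro j
      by_cases h0 : j = 0
      · subst h0; simp [hcE, hne]
      · by_cases h1 : j = Fin.last R
        · subst h1; simp [hcE, h0]
        · simp [hcE, h0, h1]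
    simp_rw [this]
    rw [Finset.sum_add_distrib]
    simp; norm_num
  set F : ZMod N → ℝ := fun B => ‖∏ μ, ∑ i ∈ range R, z μ B ^ i‖ ^ 2 with hF
  have hA : ∑ B, F B = N * (R : ℝ) ^ Fintype.card M := by
    have := parseval w R hw a (fun _ => cD)
    simp_rw [hD, hDn] at this
    simpa [hF, hz] using this
  have hB : ∀ ν, (R : ℝ) * ∑ B, F B * ‖1 - z ν B‖ ^ 2 = 2 * (N * (R : ℝ) ^ Fintype.card M) := by
    intro ν
    have := parseval w R hw a (fun μ => if μ = ν then cE else cD)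
    have h1 : ∀ B : ZMod N, ‖∏ μ, ∑ j : Fin (R + 1), (if μ = ν then cE else cD) j *
        (ZMod.stdAddChar (B * w μ - a μ) : ℂ) ^ (j : ℕ)‖ ^ 2 = F B * ‖1 - z ν B‖ ^ 2 := by
      intro B
      have h2 : ∀ μ, ∑ j : Fin (R + 1), (if μ = ν then cE else cD) j *
          (ZMod.stdAddChar (B * w μ - a μ) : ℂ) ^ (j : ℕ) =
          (if μ = ν then 1 - z ν B else 1) * ∑ i ∈ range R, z μ B ^ i := by
        intro μ
        by_cases h : μ = ν
        · subst h; simp only [if_true]; exact hE _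
        · simp only [h, if_false, one_mul]; exact hD _
      simp_rw [h2]
      rw [Finset.prod_mul_distrib, Finset.prod_ite_eq' univ ν, norm_mul, mul_pow, mul_comm]
      simp [hF]
    have h3 : (R : ℝ) * ∏ μ, ∑ j, ‖(if μ = ν then cE else cD) j‖ ^ 2 =
        2 * (R : ℝ) ^ Fintype.card M := by
      have h4 : ∀ μ, ∑ j, ‖(if μ = ν then cE else cD) j‖ ^ 2 =
          (if μ = ν then 2 / (R : ℝ) else 1) * R := by
        intro μ
        by_cases h : μ = ν
        · simp only [h, if_true, hEn]; field_simp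
        · simp only [h, if_false, hDn, one_mul]
      simp_rw [h4]
      rw [Finset.prod_mul_distrib, Finset.prod_ite_eq' univ ν]
      simp only [mem_univ, if_true, prod_const, card_univ]
      field_simp
    simp_rw [h1] at this
    rw [this, mul_left_comm, h3]; ring
  have hex : ∃ B, (R : ℝ) * ∑ ν, ‖1 - z ν B‖ ^ 2 ≤ 2 * Fintype.card M := by
    by_contra hcon
    push Not at hcon
    have hpos : 0 < ∑ B, F B := by rw [hA]; positivity
    obtain ⟨B₀, -, hB₀⟩ : ∃ B ∈ univ, 0 < F B := by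
      by_contra h
      push Not at h
      exact absurd (Finset.sum_nonpos h) (not_le.2 hpos)
    have hlt : ∑ B, F B * (2 * Fintype.card M) < ∑ B, F B * (R * ∑ ν, ‖1 - z ν B‖ ^ 2) := by
      refine Finset.sum_lt_sum (fun B _ => ?_) ⟨B₀, mem_univ _, ?_⟩
      · exact mul_le_mul_of_nonneg_left (hcon B).le (by simp only [hF]; positivity)
      · exact mul_lt_mul_of_pos_left (hcon B₀) hB₀
    have hr : ∑ B, F B * (R * ∑ ν, ‖1 - z ν B‖ ^ 2) =
        ∑ ν, (R : ℝ) * ∑ B, F B * ‖1 - z ν B‖ ^ 2 := by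
      simp_rw [Finset.mul_sum]
      rw [Finset.sum_comm]
      refine Finset.sum_congr rfl fun ν _ => Finset.sum_congr rfl fun B _ => by ring
    rw [hr, ← Finset.sum_mul, hA] at hlt
    simp_rw [hB] at hlt
    simp only [sum_const, card_univ, nsmul_eq_mul] at hlt
    linarith only [hlt]
  obtain ⟨B, hB⟩ := hex
  refine ⟨B, fun μ => ?_⟩
  have h1 : ‖1 - z μ B‖ ^ 2 ≤ ∑ ν, ‖1 - z ν B‖ ^ 2 :=
    Finset.single_le_sum (f := fun ν => ‖1 - z ν B‖ ^ 2) (fun ν _ => by positivity) (mem_univ μ)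
  have h2 := norm_one_sub_char (B * w μ - a μ)
  have h3 : (R : ℝ) * ‖1 - z μ B‖ ^ 2 ≤ 2 * Fintype.card M :=
    (mul_le_mul_of_nonneg_left h1 hRpos.le).trans hB
  have h4 : 8 * (R : ℝ) * ((B * w μ - a μ).valMinAbs : ℝ) ^ 2 ≤
      (Fintype.card M : ℝ) * (N : ℝ) ^ 2 := by
    have h5 : (R : ℝ) * (16 * ((B * w μ - a μ).valMinAbs : ℝ) ^ 2) ≤
        R * ((N : ℝ) ^ 2 * ‖1 - z μ B‖ ^ 2) := mul_le_mul_of_nonneg_left h2 hRpos.le
    have h6 : (N : ℝ) ^ 2 * (R * ‖1 - z μ B‖ ^ 2) ≤ (N : ℝ) ^ 2 * (2 * Fintype.card M) :=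
      mul_le_mul_of_nonneg_left h3 (by positivity)
    linarith only [h5, h6]
  exact_mod_cast h4

end

end Pool.Agent.Work.MP_31941f_co
end

-- merged part: Pool.Agent.Work.MP_31941f_co.AntiConc
section
/-!
Anti-concentration of a linear form modulo `p^2` on small lattice vectors.
-/

namespace Pool.Agent.Work.MP_31941f_co

open Finset

theorem int_eq_zero_of_cast {p : ℕ} {z : ℤ} (h : (z : ZMod p) = 0) (hz : |z| < p) : z = 0 := by
  rw [ZMod.intCast_zmod_eq_zero_iff_dvd] at h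
  exact Int.eq_zero_of_abs_lt_dvd h hz

variable {p : ℕ} [Fact p.Prime] {M : Type*} [Fintype M] [DecidableEq M]

theorem exists_tiny (w : M → ZMod p) (γ : M → ℤ) (μ₀ : M) (hγ : (γ μ₀ : ZMod p) ≠ 0)
    (L : ℕ) (hL : 1 ≤ L) (hLp : L ^ 2 ≤ p)
    (hw : ∀ j j' : M → Fin (Fintype.card M * L ^ 4 + 1),
      ∑ μ, ((j μ : ℕ) : ZMod p) * w μ = ∑ μ, ((j' μ : ℕ) : ZMod p) * w μ → j = j') :
    ∃ (B₀ : ZMod p) (θ : M → ℤ), (∀ μ, (θ μ : ZMod p) = B₀ * w μ) ∧
      (∀ μ, L * |θ μ| ≤ 2 * p) ∧ ¬ ((p : ℤ) ^ 2 ∣ ∑ μ, γ μ * θ μ) := by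
  have hp : p.Prime := Fact.out
  have hM : 1 ≤ Fintype.card M := Fintype.card_pos_iff.2 ⟨μ₀⟩
  have hR : 1 ≤ Fintype.card M * L ^ 4 := Nat.mul_pos hM (by positivity)
  set q : ℕ := p / L with hq
  set r : ℕ := p % L with hr
  have hqr : (L : ℤ) * q + r = p := by exact_mod_cast Nat.div_add_mod p L
  have hrL : (r : ℤ) < L := by exact_mod_cast Nat.mod_lt p hL
  set a : M → ℤ := fun μ => if μ = μ₀ then q else 0 with ha
  obtain ⟨B, hB⟩ := kronecker w _ hR hw (fun μ => (a μ : ZMod p))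
  set η : M → ℤ := fun μ => (B * w μ - (a μ : ZMod p)).valMinAbs with hη
  have hL0 : (1 : ℤ) ≤ L := by exact_mod_cast hL
  have hLp' : (L : ℤ) ^ 2 ≤ p := by exact_mod_cast hLp
  have hp0 : (0 : ℤ) < p := by exact_mod_cast hp.pos
  have hη1 : ∀ μ, 2 * (L : ℤ) ^ 2 * |η μ| ≤ p := by
    intro μ
    have h1 := hB μ
    have hM' : (0 : ℤ) < Fintype.card M := by exact_mod_cast hM
    push_cast at h1
    have h2 : 8 * (L : ℤ) ^ 4 * η μ ^ 2 ≤ (p : ℤ) ^ 2 := by
      have : (Fintype.card M : ℤ) * (8 * (L : ℤ) ^ 4 * η μ ^ 2) ≤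
          (Fintype.card M : ℤ) * (p : ℤ) ^ 2 := by
        simp only [hη]; linarith
      exact le_of_mul_le_mul_left this hM'
    have h3 : (2 * (L : ℤ) ^ 2 * |η μ|) ^ 2 ≤ (p : ℤ) ^ 2 := by
      have : (2 * (L : ℤ) ^ 2 * |η μ|) ^ 2 = 4 * (L : ℤ) ^ 4 * η μ ^ 2 := by
        rw [mul_pow, sq_abs]; ring
      rw [this]
      linarith only [h2, sq_nonneg (η μ), pow_nonneg (le_trans zero_le_one hL0) 4,
        mul_nonneg (pow_nonneg (le_trans zero_le_one hL0) 4) (sq_nonneg (η μ)), sq_nonneg ↑p]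
    exact le_of_sq_le_sq h3 hp0.le |> fun h => h
  have hηc : ∀ μ, ((a μ + η μ : ℤ) : ZMod p) = B * w μ := by
    intro μ
    simp only [hη]
    push_cast
    ring
  by_cases h1 : (p : ℤ) ^ 2 ∣ ∑ μ, γ μ * (a μ + η μ)
  · refine ⟨L * B, fun μ => L * (a μ + η μ) - (if μ = μ₀ then (p : ℤ) else 0), fun μ => ?_,
      fun μ => ?_, fun h2 => ?_⟩
    · have := hηc μ
      rw [Int.cast_sub, Int.cast_mul, this]
      split_ifs <;> simp [mul_assoc]
    · have h3 := hη1 μ
      have h4 : |(L : ℤ) * (a μ + η μ) - (if μ = μ₀ then (p : ℤ) else 0)| ≤ L + L * |η μ| := by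
        by_cases hμ : μ = μ₀
        · simp only [ha, hμ, if_true]
          have : (L : ℤ) * (q + η μ₀) - p = -r + L * η μ₀ := by linarith only [hqr]
          rw [this]
          refine (abs_add_le _ _).trans ?_
          rw [abs_neg, abs_mul, abs_of_nonneg (by positivity : (0 : ℤ) ≤ r),
            abs_of_nonneg (by positivity : (0 : ℤ) ≤ L)]
          linarith only [hrL]
        · simp only [ha, hμ, if_false, zero_add, sub_zero]
          rw [abs_mul, abs_of_nonneg (by positivity : (0 : ℤ) ≤ L)]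
          linarith only [hL]
      have h5 := mul_le_mul_of_nonneg_left h4 (le_trans zero_le_one hL0)
      linarith only [hLp, hp0, h3, h5, abs_nonneg (η μ)]
    · apply hγ
      rw [ZMod.intCast_zmod_eq_zero_iff_dvd]
      have h3 : ∑ μ, γ μ * (L * (a μ + η μ) - (if μ = μ₀ then (p : ℤ) else 0)) =
          L * ∑ μ, γ μ * (a μ + η μ) - p * γ μ₀ := by
        simp_rw [mul_sub, Finset.sum_sub_distrib, Finset.mul_sum]
        congr 1
        · exact Finset.sum_congr rfl fun μ _ => by ring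
        · simp [mul_comm]
      rw [h3] at h2
      have h4 : (p : ℤ) ^ 2 ∣ p * γ μ₀ := by
        have := dvd_sub (Dvd.dvd.mul_left h1 L) h2
        simpa using this
      rw [sq] at h4
      exact (mul_dvd_mul_iff_left hp0.ne').1 h4
  · refine ⟨B, fun μ => a μ + η μ, hηc, fun μ => ?_, h1⟩
    have h3 := hη1 μ
    have h4 : |a μ + η μ| ≤ q + |η μ| := by
      refine (abs_add_le _ _).trans ?_
      have : |a μ| ≤ q := by
        simp only [ha]
        split_ifs <;> simp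
      linarith only [this]
    have h5 := mul_le_mul_of_nonneg_left h4 (le_trans zero_le_one hL0)
    have h6 : (0 : ℤ) ≤ r := by positivity
    have h7 : (L : ℤ) * |η μ| ≤ (L : ℤ) ^ 2 * |η μ| := by
      apply mul_le_mul_of_nonneg_right _ (abs_nonneg _)
      nlinarith only [hL]
    linarith only [hqr, hp0, h3, h5, h7, abs_nonneg (η μ)]

theorem anticonc (w : M → ZMod p) (γ : M → ℤ) (μ₀ : M) (hγ : (γ μ₀ : ZMod p) ≠ 0)
    (T : ℕ) (hT : 1 ≤ T) (hTp : (4 * T) ^ 2 ≤ p)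
    (hw : ∀ j j' : M → Fin (Fintype.card M * (4 * T) ^ 4 + 1),
      ∑ μ, ((j μ : ℕ) : ZMod p) * w μ = ∑ μ, ((j' μ : ℕ) : ZMod p) * w μ → j = j')
    (S : Finset (ZMod p))
    (hS : ∀ B ∈ S, ∃ θ : M → ℤ, (∀ μ, (θ μ : ZMod p) = B * w μ) ∧ (∀ μ, 8 * |θ μ| ≤ p) ∧
      (p : ℤ) ^ 2 ∣ ∑ μ, γ μ * θ μ) :
    T * S.card ≤ p := by
  have hp : p.Prime := Fact.out
  obtain ⟨B₀, θ₀, h1, h2, h3⟩ := exists_tiny w γ μ₀ hγ (4 * T) (by omega) hTp hw
  have hp0 : (0 : ℤ) < p := by exact_mod_cast hp.pos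
  have hTp' : T ≤ p := by nlinarith only [hTp, hp0, hT]
  have hinj : Set.InjOn (fun x : Fin T × ZMod p => x.2 + ((x.1 : ℕ) : ZMod p) * B₀)
      (((univ : Finset (Fin T)) ×ˢ S : Finset _) : Set _) := by
    rintro ⟨t, B⟩ hB ⟨t', B'⟩ hB' h
    simp only [coe_product, coe_univ, Set.mem_prod, Set.mem_univ, mem_coe, true_and] at hB hB'
    simp only at h
    obtain ⟨θ, a1, a2, a3⟩ := hS B hB
    obtain ⟨θ', b1, b2, b3⟩ := hS B' hB'
    have ht : |((t : ℕ) : ℤ) - (t' : ℕ)| < T := by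
      have := t.2; have := t'.2
      rw [abs_lt]; constructor <;> omega
    have hz : ∀ μ, θ μ - θ' μ + (((t : ℕ) : ℤ) - (t' : ℕ)) * θ₀ μ = 0 := by
      intro μ
      apply int_eq_zero_of_cast (p := p)
      · push_cast
        rw [a1, b1, h1]
        linear_combination (w μ) * h
      · have c1 := a2 μ
        have c2 := b2 μ
        have c3 := h2 μ
        have c4 : |θ μ - θ' μ + (((t : ℕ) : ℤ) - (t' : ℕ)) * θ₀ μ| ≤
            |θ μ| + |θ' μ| + T * |θ₀ μ| := by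
          refine (abs_add_le _ _).trans (add_le_add (abs_sub _ _) ?_)
          rw [abs_mul]
          exact mul_le_mul_of_nonneg_right ht.le (abs_nonneg _)
        push_cast at c3
        linarith only [hp0, c1, c2, c4, c3]
    have hsum : (((t : ℕ) : ℤ) - (t' : ℕ)) * ∑ μ, γ μ * θ₀ μ =
        ∑ μ, γ μ * θ' μ - ∑ μ, γ μ * θ μ := by
      rw [Finset.mul_sum, ← Finset.sum_sub_distrib]
      refine Finset.sum_congr rfl fun μ _ => ?_
      linear_combination (γ μ) * hz μ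
    have hdvd : (p : ℤ) ^ 2 ∣ (((t : ℕ) : ℤ) - (t' : ℕ)) * ∑ μ, γ μ * θ₀ μ := by
      rw [hsum]; exact dvd_sub b3 a3
    have htt : ((t : ℕ) : ℤ) - (t' : ℕ) = 0 := by
      by_contra hne
      apply h3
      have hnd : ¬ (p : ℤ) ∣ ((t : ℕ) : ℤ) - (t' : ℕ) := fun hd =>
        hne (Int.eq_zero_of_abs_lt_dvd hd (lt_of_lt_of_le ht (by exact_mod_cast hTp')))
      have hprime : Prime (p : ℤ) := Nat.prime_iff_prime_int.1 hp
      have hcop : IsCoprime ((p : ℤ) ^ 2) (((t : ℕ) : ℤ) - (t' : ℕ)) :=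
        ((Prime.coprime_iff_not_dvd hprime).2 hnd).pow_left
      exact hcop.dvd_of_dvd_mul_left hdvd
    have htt' : t = t' := by
      apply Fin.ext
      omega
    subst htt'
    have : B = B' := add_right_cancel h
    rw [this]
  have := Finset.card_le_card_of_injOn _ (fun _ _ => mem_univ _) hinj
  simpa [ZMod.card] using this

end Pool.Agent.Work.MP_31941f_co
end

-- merged part: Pool.Agent.Work.MP_31941f_co.Gowers
section
/-!
Basic facts on the Gowers averages: recursion, nonnegativity, monotonicity.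
-/

namespace Pool.Agent.Work.MP_31941f_co

open Finset

theorem prod_fun_succ {M : Type*} [CommMonoid M] {α : Type*} [Fintype α] [DecidableEq α] {k : ℕ}
    (F : (Fin (k + 1) → α) → M) :
    ∏ ω : Fin (k + 1) → α, F ω = ∏ a : α, ∏ ω : Fin k → α, F (Fin.cons a ω) := by
  rw [← Fintype.prod_prod_type']
  exact (Fintype.prod_equiv (Fin.consEquiv (fun _ => α)) _ _ (fun _ => rfl)).symm

theorem sum_fun_succ {M : Type*} [AddCommMonoid M] {α : Type*} [Fintype α] [DecidableEq α] {k : ℕ}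
    (F : (Fin (k + 1) → α) → M) :
    ∑ ω : Fin (k + 1) → α, F ω = ∑ a : α, ∑ ω : Fin k → α, F (Fin.cons a ω) := by
  rw [← Fintype.sum_prod_type']
  exact (Fintype.sum_equiv (Fin.consEquiv (fun _ => α)) _ _ (fun _ => rfl)).symm

variable (p : ℕ) [Fact p.Prime]

/-- The product over the cube. -/
noncomputable def cube (k : ℕ) (f : ZMod p → ℂ) (h : Fin k → ZMod p) (x : ZMod p) : ℂ :=
  ∏ ω : Fin k → Fin 2,
    (starRingEnd ℂ)^[∑ j, (ω j : ℕ)] (f (x + ∑ j, ((ω j : ℕ) : ZMod p) * h j))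

theorem cube_succ (k : ℕ) (f : ZMod p → ℂ) (a : ZMod p) (h : Fin k → ZMod p) (x : ZMod p) :
    cube p (k + 1) f (Fin.cons a h) x = cube p k f h x * (starRingEnd ℂ) (cube p k f h (x + a)) := by
  unfold cube
  rw [prod_fun_succ, Fin.prod_univ_two, map_prod]
  congr 1
  · refine Finset.prod_congr rfl fun ω _ => ?_
    simp [Fin.sum_univ_succ]
  · refine Finset.prod_congr rfl fun ω _ => ?_
    simp only [Fin.sum_univ_succ, Fin.cons_zero, Fin.cons_succ, Fin.val_one, Nat.cast_one, one_mul]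
    rw [add_comm 1, Function.iterate_succ_apply', add_assoc]

theorem gowersAvg_eq (k : ℕ) (f : ZMod p → ℂ) :
    gowersAvg p k f = ((p : ℂ) ^ (k + 1))⁻¹ * ∑ h : Fin k → ZMod p, ∑ x, cube p k f h x := by
  unfold gowersAvg cube
  rw [Finset.sum_comm]

theorem gowersAvg_succ (k : ℕ) (f : ZMod p → ℂ) :
    gowersAvg p (k + 1) f =
      ((((p : ℝ) ^ (k + 2))⁻¹ * ∑ h : Fin k → ZMod p, ‖∑ x, cube p k f h x‖ ^ 2 : ℝ) : ℂ) := by
  rw [gowersAvg_eq, sum_fun_succ, Finset.sum_comm]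
  push_cast
  congr 1
  refine Finset.sum_congr rfl fun h _ => ?_
  rw [← Complex.mul_conj', map_sum, Finset.sum_mul_sum, Finset.sum_comm]
  refine Finset.sum_congr rfl fun x _ => ?_
  simp_rw [cube_succ]
  exact Fintype.sum_equiv (Equiv.addLeft x) _ _ (fun a => rfl)

theorem norm_gowersAvg_succ (k : ℕ) (f : ZMod p → ℂ) :
    ‖gowersAvg p (k + 1) f‖ = (gowersAvg p (k + 1) f).re := by
  rw [gowersAvg_succ, Complex.norm_real, Complex.ofReal_re, Real.norm_of_nonneg]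
  positivity

theorem norm_gowersAvg_sq_le (k : ℕ) (f : ZMod p → ℂ) :
    ‖gowersAvg p k f‖ ^ 2 ≤ ‖gowersAvg p (k + 1) f‖ := by
  have hp : (0 : ℝ) < p := by exact_mod_cast (Fact.out : p.Prime).pos
  rw [norm_gowersAvg_succ, gowersAvg_succ, Complex.ofReal_re, gowersAvg_eq, norm_mul, mul_pow]
  have h1 : ‖∑ h : Fin k → ZMod p, ∑ x, cube p k f h x‖ ^ 2 ≤
      (p : ℝ) ^ k * ∑ h : Fin k → ZMod p, ‖∑ x, cube p k f h x‖ ^ 2 := by
    calc _ ≤ (∑ h : Fin k → ZMod p, ‖∑ x, cube p k f h x‖) ^ 2 := by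
          gcongr
          exact norm_sum_le _ _
      _ ≤ _ := by
          have := sq_sum_le_card_mul_sum_sq (s := (univ : Finset (Fin k → ZMod p)))
            (f := fun h => ‖∑ x, cube p k f h x‖)
          simpa [ZMod.card] using this
  have h2 : ‖((p : ℂ) ^ (k + 1))⁻¹‖ ^ 2 = (((p : ℝ) ^ (k + 1))⁻¹) ^ 2 := by simp
  rw [h2]
  calc _ ≤ (((p : ℝ) ^ (k + 1))⁻¹) ^ 2 *
        ((p : ℝ) ^ k * ∑ h : Fin k → ZMod p, ‖∑ x, cube p k f h x‖ ^ 2) := by gcongr
    _ = _ := by field_simp; ring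

theorem gowersNorm_le_succ (k : ℕ) (f : ZMod p → ℂ) :
    gowersNorm p k f ≤ gowersNorm p (k + 1) f := by
  unfold gowersNorm
  have h := norm_gowersAvg_sq_le p k f
  calc ‖gowersAvg p k f‖ ^ ((1 : ℝ) / 2 ^ k)
      = (‖gowersAvg p k f‖ ^ 2) ^ ((1 : ℝ) / 2 ^ (k + 1)) := by
        rw [← Real.rpow_natCast ‖gowersAvg p k f‖ 2, ← Real.rpow_mul (norm_nonneg _)]
        congr 1
        push_cast
        field_simp
        ring
    _ ≤ _ := Real.rpow_le_rpow (by positivity) h (by positivity)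

theorem gowersNorm_mono {k l : ℕ} (hkl : k ≤ l) (f : ZMod p → ℂ) :
    gowersNorm p k f ≤ gowersNorm p l f := by
  induction l, hkl using Nat.le_induction with
  | base => exact le_rfl
  | succ n _ ih => exact ih.trans (gowersNorm_le_succ p n f)

end Pool.Agent.Work.MP_31941f_co
end

-- merged part: Pool.Agent.Work.MP_31941f_co.Generic
section
/-!
For most `h` in `(ZMod p)^4` the fourteen monomials have no small integer relation.
-/

namespace Pool.Agent.Work.MP_31941f_co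

open Finset

theorem card_zeros {F : Type*} [Field F] [Fintype F] [DecidableEq F] (k : ℕ) :
    ∀ f : (Fin k → F) → F,
      (∀ i h a, f (Function.update h i a) = f (Function.update h i 0) +
        a * (f (Function.update h i 1) - f (Function.update h i 0))) → f ≠ 0 →
      Fintype.card F * (univ.filter (fun h => f h = 0)).card ≤ k * Fintype.card F ^ k := by
  induction k with
  | zero =>
    intro f _ hf
    have : univ.filter (fun h => f h = 0) = ∅ := by
      rw [Finset.filter_eq_empty_iff]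
      intro h _ hh
      apply hf
      funext h'
      rw [Subsingleton.elim h' h]; exact hh
    rw [this]; simp
  | succ k ih =>
    intro f haff hf
    set f0 : (Fin k → F) → F := fun h => f (Fin.cons 0 h) with hf0
    set f1 : (Fin k → F) → F := fun h => f (Fin.cons 1 h) - f (Fin.cons 0 h) with hf1
    have hcons : ∀ a h, f (Fin.cons a h) = f0 h + a * f1 h := by
      intro a h
      have := haff 0 (Fin.cons 0 h) a
      simpa [Fin.update_cons_zero] using this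
    have a0 : ∀ i h a, f0 (Function.update h i a) = f0 (Function.update h i 0) +
        a * (f0 (Function.update h i 1) - f0 (Function.update h i 0)) := by
      intro i h a
      simp only [hf0, Fin.cons_update]
      exact haff _ _ _
    have a1 : ∀ i h a, f1 (Function.update h i a) = f1 (Function.update h i 0) +
        a * (f1 (Function.update h i 1) - f1 (Function.update h i 0)) := by
      intro i h a
      simp only [hf1, Fin.cons_update]
      rw [haff i.succ (Fin.cons 1 h) a, haff i.succ (Fin.cons 0 h) a]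
      ring
    have hcard : (univ.filter (fun h : Fin (k + 1) → F => f h = 0)).card =
        ∑ h : Fin k → F, (univ.filter (fun a : F => f0 h + a * f1 h = 0)).card := by
      simp only [Finset.card_filter]
      rw [sum_fun_succ, Finset.sum_comm]
      simp only [hcons]
    rw [hcard]
    by_cases h1 : f1 = 0
    · have h0 : f0 ≠ 0 := by
        intro h0
        apply hf
        funext h
        rw [← Fin.cons_self_tail h, hcons, h0, h1]; simp
      have := ih f0 a0 h0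
      have h2 : ∑ h : Fin k → F, (univ.filter (fun a : F => f0 h + a * f1 h = 0)).card =
          Fintype.card F * (univ.filter (fun h => f0 h = 0)).card := by
        rw [Finset.card_filter (fun h => f0 h = 0), Finset.mul_sum]
        refine Finset.sum_congr rfl fun h _ => ?_
        by_cases hh : f0 h = 0 <;> simp [h1, hh]
      rw [h2]
      calc _ ≤ Fintype.card F * (k * Fintype.card F ^ k) := Nat.mul_le_mul_left _ this
        _ ≤ _ := by rw [pow_succ]; linarith only [Nat.zero_le (Fintype.card F ^ k * Fintype.card F)]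
    · have := ih f1 a1 h1
      have h2 : ∑ h : Fin k → F, (univ.filter (fun a : F => f0 h + a * f1 h = 0)).card ≤
          Fintype.card F * (univ.filter (fun h => f1 h = 0)).card + Fintype.card F ^ k := by
        have h3 : ∀ h : Fin k → F, (univ.filter (fun a : F => f0 h + a * f1 h = 0)).card ≤
            Fintype.card F * (if f1 h = 0 then 1 else 0) + 1 := by
          intro h
          by_cases hh : f1 h = 0
          · simp only [hh, if_true, mul_one]
            exact (Finset.card_le_univ _).trans (Nat.le_succ _)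
          · simp only [hh, if_false, mul_zero, zero_add]
            rw [Finset.card_le_one]
            intro a ha b hb
            simp only [mem_filter, mem_univ, true_and] at ha hb
            apply mul_right_cancel₀ hh
            linear_combination ha - hb
        refine (Finset.sum_le_sum fun h _ => h3 h).trans ?_
        rw [Finset.sum_add_distrib, ← Finset.mul_sum, ← Finset.card_filter]
        simp
      calc _ ≤ Fintype.card F * (Fintype.card F * (univ.filter (fun h => f1 h = 0)).card +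
            Fintype.card F ^ k) := Nat.mul_le_mul_left _ h2
        _ ≤ Fintype.card F * (k * Fintype.card F ^ k + Fintype.card F ^ k) := by gcongr
        _ = _ := by ring

/-- The fourteen frequencies. -/
def wv {R : Type*} [CommRing R] (h : Fin 4 → R) : Fin 14 → R :=
  ![h 0, h 1, h 2, h 3, 2 * h 0 * h 1, 2 * h 0 * h 2, 2 * h 0 * h 3, 2 * h 1 * h 2, 2 * h 1 * h 3,
    2 * h 2 * h 3, 6 * h 1 * h 2 * h 3, 6 * h 0 * h 2 * h 3, 6 * h 0 * h 1 * h 3,
    6 * h 0 * h 1 * h 2]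

theorem sum_wv {R : Type*} [CommRing R] (ρ : Fin 14 → R) (h : Fin 4 → R) :
    ∑ μ, ρ μ * wv h μ = ρ 0 * h 0 + ρ 1 * h 1 + ρ 2 * h 2 + ρ 3 * h 3 + ρ 4 * (2 * h 0 * h 1) +
      ρ 5 * (2 * h 0 * h 2) + ρ 6 * (2 * h 0 * h 3) + ρ 7 * (2 * h 1 * h 2) +
      ρ 8 * (2 * h 1 * h 3) + ρ 9 * (2 * h 2 * h 3) + ρ 10 * (6 * h 1 * h 2 * h 3) +
      ρ 11 * (6 * h 0 * h 2 * h 3) + ρ 12 * (6 * h 0 * h 1 * h 3) +
      ρ 13 * (6 * h 0 * h 1 * h 2) := by
  simp only [Fin.sum_univ_succ, wv]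
  simp
  ring

variable {p : ℕ} [Fact p.Prime]

theorem card_zeros_wv (hp : 3 < p) (ρ : Fin 14 → ZMod p) (hρ : ρ ≠ 0) :
    (univ.filter (fun h : Fin 4 → ZMod p => ∑ μ, ρ μ * wv h μ = 0)).card ≤ 4 * p ^ 3 := by
  have hp0 : 0 < p := by omega
  have h2 : (2 : ZMod p) ≠ 0 := by
    intro h
    have : ((2 : ℤ) : ZMod p) = 0 := by exact_mod_cast h
    have := int_eq_zero_of_cast this (by simp; omega)
    omega
  have h3 : (3 : ZMod p) ≠ 0 := by
    intro h
    have : ((3 : ℤ) : ZMod p) = 0 := by exact_mod_cast h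
    have := int_eq_zero_of_cast this (by simp; omega)
    omega
  have h6 : (6 : ZMod p) ≠ 0 := by
    have : (6 : ZMod p) = 2 * 3 := by norm_num
    rw [this]; exact mul_ne_zero h2 h3
  have := card_zeros 4 (fun h : Fin 4 → ZMod p => ∑ μ, ρ μ * wv h μ) (by
    intro i h a
    simp only [sum_wv]
    fin_cases i <;> simp [Function.update] <;> ring) (by
    intro hz
    apply hρ
    have e : ∀ a b c d : ZMod p, ∑ μ, ρ μ * wv ![a, b, c, d] μ = 0 := fun a b c d =>
      congrFun hz ![a, b, c, d]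
    simp only [sum_wv] at e
    simp only [Matrix.cons_val_zero, Matrix.cons_val_one, Matrix.cons_val] at e
    have r0 : ρ 0 = 0 := by linear_combination e 1 0 0 0
    have r1 : ρ 1 = 0 := by linear_combination e 0 1 0 0
    have r2 : ρ 2 = 0 := by linear_combination e 0 0 1 0
    have r3 : ρ 3 = 0 := by linear_combination e 0 0 0 1
    have r4 : ρ 4 = 0 := by
      apply mul_left_cancel₀ h2; linear_combination e 1 1 0 0 - r0 - r1
    have r5 : ρ 5 = 0 := by
      apply mul_left_cancel₀ h2; linear_combination e 1 0 1 0 - r0 - r2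
    have r6 : ρ 6 = 0 := by
      apply mul_left_cancel₀ h2; linear_combination e 1 0 0 1 - r0 - r3
    have r7 : ρ 7 = 0 := by
      apply mul_left_cancel₀ h2; linear_combination e 0 1 1 0 - r1 - r2
    have r8 : ρ 8 = 0 := by
      apply mul_left_cancel₀ h2; linear_combination e 0 1 0 1 - r1 - r3
    have r9 : ρ 9 = 0 := by
      apply mul_left_cancel₀ h2; linear_combination e 0 0 1 1 - r2 - r3
    have r10 : ρ 10 = 0 := by
      apply mul_left_cancel₀ h6
      linear_combination e 0 1 1 1 - r1 - r2 - r3 - 2 * r7 - 2 * r8 - 2 * r9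
    have r11 : ρ 11 = 0 := by
      apply mul_left_cancel₀ h6
      linear_combination e 1 0 1 1 - r0 - r2 - r3 - 2 * r5 - 2 * r6 - 2 * r9
    have r12 : ρ 12 = 0 := by
      apply mul_left_cancel₀ h6
      linear_combination e 1 1 0 1 - r0 - r1 - r3 - 2 * r4 - 2 * r6 - 2 * r8
    have r13 : ρ 13 = 0 := by
      apply mul_left_cancel₀ h6
      linear_combination e 1 1 1 0 - r0 - r1 - r2 - 2 * r4 - 2 * r5 - 2 * r7
    funext μ
    fin_cases μ
    exacts [r0, r1, r2, r3, r4, r5, r6, r7, r8, r9, r10, r11, r12, r13])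
  rw [ZMod.card] at this
  have h4 : p * (univ.filter (fun h : Fin 4 → ZMod p => ∑ μ, ρ μ * wv h μ = 0)).card ≤
      p * (4 * p ^ 3) := by
    calc _ ≤ 4 * p ^ 4 := this
      _ = _ := by ring
  exact Nat.le_of_mul_le_mul_left h4 hp0

/-- `h` is good for the parameter `R`. -/
def Good (R : ℕ) (h : Fin 4 → ZMod p) : Prop :=
  h 0 ≠ 0 ∧ ∀ j j' : Fin 14 → Fin (R + 1),
    ∑ μ, ((j μ : ℕ) : ZMod p) * wv h μ = ∑ μ, ((j' μ : ℕ) : ZMod p) * wv h μ → j = j'

open Classical in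
theorem card_bad (hp : 3 < p) (R : ℕ) (hR : R < p) :
    (univ.filter (fun h : Fin 4 → ZMod p => ¬ Good R h)).card ≤
      ((R + 1) ^ 28 + 1) * (4 * p ^ 3) := by
  set Z : (Fin 14 → ZMod p) → Finset (Fin 4 → ZMod p) :=
    fun ρ => univ.filter (fun h : Fin 4 → ZMod p => ∑ μ, ρ μ * wv h μ = 0) with hZ
  set ρ₀ : Fin 14 → ZMod p := fun μ => if μ = 0 then 1 else 0 with hρ₀
  set D : Finset ((Fin 14 → Fin (R + 1)) × (Fin 14 → Fin (R + 1))) :=
    univ.filter (fun x => x.1 ≠ x.2) with hD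
  have hsub : univ.filter (fun h : Fin 4 → ZMod p => ¬ Good R h) ⊆
      D.biUnion (fun x => Z (fun μ => ((x.1 μ : ℕ) : ZMod p) - ((x.2 μ : ℕ) : ZMod p))) ∪ Z ρ₀ := by
    intro h hh
    simp only [mem_filter, mem_univ, true_and, Good, not_and_or, not_not, not_forall] at hh
    rcases hh with hh | ⟨j, j', h1, h2⟩
    · apply mem_union_right
      simp [hZ, hρ₀, wv, hh]
    · apply mem_union_left
      rw [mem_biUnion]
      refine ⟨(j, j'), by simpa [hD] using h2, ?_⟩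
      simp only [hZ, mem_filter, mem_univ, true_and, sub_mul, Finset.sum_sub_distrib]
      rw [h1, sub_self]
  refine (card_le_card hsub).trans ((card_union_le _ _).trans ?_)
  have h1 : (Z ρ₀).card ≤ 4 * p ^ 3 := by
    apply card_zeros_wv hp
    intro h
    have := congrFun h 0
    simp [hρ₀] at this
  have h2 : (D.biUnion (fun x => Z (fun μ => ((x.1 μ : ℕ) : ZMod p) -
      ((x.2 μ : ℕ) : ZMod p)))).card ≤ D.card * (4 * p ^ 3) := by
    apply Finset.card_biUnion_le_card_mul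
    intro x hx
    apply card_zeros_wv hp
    intro h
    simp only [hD, mem_filter, mem_univ, true_and] at hx
    apply hx
    funext μ
    have h3 := congrFun h μ
    simp only [Pi.zero_apply, sub_eq_zero] at h3
    rw [ZMod.natCast_eq_natCast_iff'] at h3
    have := (x.1 μ).2; have := (x.2 μ).2
    rw [Nat.mod_eq_of_lt (by omega), Nat.mod_eq_of_lt (by omega)] at h3
    exact Fin.ext h3
  have h3 : D.card ≤ (R + 1) ^ 28 := by
    refine (card_le_univ _).trans ?_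
    simp only [Fintype.card_prod, Fintype.card_pi, Fintype.card_fin, prod_const, card_univ]
    rw [← pow_add]
  calc _ ≤ (R + 1) ^ 28 * (4 * p ^ 3) + 4 * p ^ 3 :=
        add_le_add (h2.trans (Nat.mul_le_mul_right _ h3)) h1
    _ = _ := by ring

end Pool.Agent.Work.MP_31941f_co
end

-- merged part: Pool.Agent.Work.MP_31941f_co.Phase
section
/-!
The bracket-polynomial phases modulo `p^2` and the test functions.
-/

namespace Pool.Agent.Work.MP_31941f_co

open Finset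

variable {p : ℕ} [Fact p.Prime]

/-- The signed residue of `B * n ^ b`. -/
def th (B n : ZMod p) (b : ℕ) : ℤ := (B * n ^ b).valMinAbs

theorem th_cast (B n : ZMod p) (b : ℕ) : ((th B n b : ℤ) : ZMod p) = B * n ^ b :=
  ZMod.coe_valMinAbs _

/-- The cutoff condition. -/
def Cut (B n : ZMod p) : Prop :=
  100 * |th B n 1| ≤ p ∧ 100 * |th B n 2| ≤ p ∧ 100 * |th B n 3| ≤ p

def cT : Fin 8 → ℤ := ![1, -4, 6, -4, 1, 0, 0, 0]

def cz : Fin 8 → ℤ := ![-2, 0, 2, 0, 0, 1, -2, 1]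

def Nint (s c β u t1 t2 t3 : ℤ) : ℤ :=
  s * (u ^ 3 * t1 - 2 * u ^ 2 * t2 + u * t3) + c * (6 * u * t1 - 3 * β * u ^ 2)

def phase (j : Fin 8) (B n : ZMod p) : ZMod (p ^ 2) :=
  (Nint (cT j) (cz j) B.val n.val (th B n 1) (th B n 2) (th B n 3) : ℤ)

theorem phase_lift (j : Fin 8) (B n : ZMod p) (u : ℤ) (hu : (u : ZMod p) = n) :
    phase j B n = (Nint (cT j) (cz j) B.val u (th B n 1) (th B n 2) (th B n 3) : ℤ) := by
  have hv : (((n.val : ℕ) : ℤ) : ZMod p) = n := by simp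
  have hB : (((B.val : ℕ) : ℤ) : ZMod p) = B := by simp
  obtain ⟨k, hk⟩ : (p : ℤ) ∣ u - n.val := by
    rw [← ZMod.intCast_eq_intCast_iff_dvd_sub, hv, hu]
  have hm : ∀ b : ℕ, ∃ m : ℤ, th B n b = B.val * (n.val : ℤ) ^ b + p * m := by
    intro b
    obtain ⟨m, hm⟩ : (p : ℤ) ∣ th B n b - B.val * (n.val : ℤ) ^ b := by
      rw [← ZMod.intCast_eq_intCast_iff_dvd_sub, th_cast, Int.cast_mul, Int.cast_pow, hv, hB]
    exact ⟨m, by linarith⟩
  obtain ⟨m1, h1⟩ := hm 1
  obtain ⟨m2, h2⟩ := hm 2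
  obtain ⟨m3, h3⟩ := hm 3
  unfold phase
  rw [ZMod.intCast_eq_intCast_iff_dvd_sub]
  have hu' : u = n.val + p * k := by linarith only [hk]
  generalize th B n 1 = t1 at *
  generalize th B n 2 = t2 at *
  generalize th B n 3 = t3 at *
  generalize ((n.val : ℕ) : ℤ) = v at *
  generalize ((B.val : ℕ) : ℤ) = β at *
  refine ⟨k * (cT j * (3 * v ^ 2 * m1 - 4 * v * m2 + m3) + 6 * cz j * m1) +
    cT j * (3 * v * k ^ 2 * t1 + p * k ^ 3 * t1 - 2 * k ^ 2 * t2) - 3 * cz j * β * k ^ 2, ?_⟩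
  unfold Nint
  push_cast
  rw [hu']
  linear_combination (p * k * (cT j * 3 * v ^ 2 + 6 * cz j)) * h1 - (p * k * cT j * 4 * v) * h2 +
    (p * k * cT j) * h3

open Classical in
/-- The test functions. -/
noncomputable def gfun (A : ZMod (p ^ 2)) (B : ZMod p) (j : Fin 8) (n : ZMod p) : ℂ :=
  if Cut B n then ZMod.stdAddChar (A * phase j B n) else 0

theorem norm_gfun_le (A : ZMod (p ^ 2)) (B : ZMod p) (j : Fin 8) (n : ZMod p) :
    ‖gfun A B j n‖ ≤ 1 := by
  unfold gfun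
  split_ifs
  · exact (norm_char _).le
  · simp

theorem cut_bounds {B n : ZMod p} (h : Cut B n) :
    (-(p : ℤ) ≤ 100 * th B n 1 ∧ 100 * th B n 1 ≤ p) ∧
    (-(p : ℤ) ≤ 100 * th B n 2 ∧ 100 * th B n 2 ≤ p) ∧
    (-(p : ℤ) ≤ 100 * th B n 3 ∧ 100 * th B n 3 ≤ p) := by
  obtain ⟨h1, h2, h3⟩ := h
  have a1 := le_abs_self (th B n 1)
  have a2 := le_abs_self (th B n 2)
  have a3 := le_abs_self (th B n 3)
  have b1 := neg_abs_le (th B n 1)
  have b2 := neg_abs_le (th B n 2)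
  have b3 := neg_abs_le (th B n 3)
  refine ⟨⟨?_, ?_⟩, ⟨?_, ?_⟩, ⟨?_, ?_⟩⟩ <;> linarith

theorem eq_of_cast {a b : ℤ} (h : (a : ZMod p) = b) (h1 : a - b < p) (h2 : b - a < p) : a = b := by
  have : a - b = 0 := by
    apply int_eq_zero_of_cast (p := p)
    · push_cast; rw [h, sub_self]
    · rw [abs_lt]; constructor <;> linarith only [h2, h1]
  linarith

/-- The points of the progression. -/
def pt {R : Type*} [CommRing R] (x y : R) : Fin 8 → R :=
  ![x, x + y, x + 2 * y, x + 3 * y, x + 4 * y, x + (y ^ 3 - 2 * y ^ 2), x + (y ^ 3 + 2 * y),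
    x + (y ^ 3 + 2 * y ^ 2)]

theorem pt_eq {R : Type*} [CommRing R] (x y : R) (j : Fin 8) :
    x + Polynomial.aeval y (withZero exP j) = pt x y j := by
  fin_cases j <;> simp [withZero, exP, pt, map_ofNat]

theorem sum_phase (B x y : ZMod p) (hc : ∀ j, Cut B (pt x y j)) :
    ∑ j, phase j B (pt x y j) = 0 := by
  have hp : (0 : ℤ) < p := by exact_mod_cast (Fact.out : p.Prime).pos
  have hl : ∀ j, ((pt ((x.val : ℕ) : ℤ) ((y.val : ℕ) : ℤ) j : ℤ) : ZMod p) = pt x y j := by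
    intro j
    fin_cases j <;> simp [pt]
  have h1 : ∀ j, phase j B (pt x y j) = (Nint (cT j) (cz j) B.val (pt (x.val : ℤ) (y.val : ℤ) j)
      (th B (pt x y j) 1) (th B (pt x y j) 2) (th B (pt x y j) 3) : ℤ) :=
    fun j => phase_lift j B _ _ (hl j)
  simp_rw [h1]
  rw [← Int.cast_sum]
  have hb := fun j => cut_bounds (hc j)
  have hcast := fun j b => th_cast B (pt x y j) b
  obtain ⟨t, ht⟩ : ∃ t : Fin 8 → ℕ → ℤ, ∀ j b, th B (pt x y j) b = t j b := ⟨_, fun _ _ => rfl⟩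
  simp only [ht] at hb hcast ⊢
  obtain ⟨⟨a01, b01⟩, ⟨a02, b02⟩, ⟨a03, b03⟩⟩ := hb 0
  obtain ⟨⟨a11, b11⟩, ⟨a12, b12⟩, ⟨a13, b13⟩⟩ := hb 1
  obtain ⟨⟨a21, b21⟩, ⟨a22, b22⟩, ⟨a23, b23⟩⟩ := hb 2
  obtain ⟨⟨a31, b31⟩, ⟨a32, b32⟩, ⟨a33, b33⟩⟩ := hb 3
  obtain ⟨⟨a41, b41⟩, ⟨a42, b42⟩, ⟨a43, b43⟩⟩ := hb 4
  obtain ⟨⟨a51, b51⟩, ⟨a52, b52⟩, ⟨a53, b53⟩⟩ := hb 5
  obtain ⟨⟨a61, b61⟩, ⟨a62, b62⟩, ⟨a63, b63⟩⟩ := hb 6
  obtain ⟨⟨a71, b71⟩, ⟨a72, b72⟩, ⟨a73, b73⟩⟩ := hb 7
  have r1 : t 2 1 = 2 * t 1 1 - t 0 1 := by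
    apply eq_of_cast (p := p) _ (by linarith only [hp, b01, a11, b21]) (by linarith only [hp, a01, b11, a21])
    push_cast; simp only [hcast, pt]; simp; ring
  have r2 : t 3 1 = 3 * t 1 1 - 2 * t 0 1 := by
    apply eq_of_cast (p := p) _ (by linarith only [hp, b01, a11, b31]) (by linarith only [hp, a01, b11, a31])
    push_cast; simp only [hcast, pt]; simp; ring
  have r3 : t 4 1 = 4 * t 1 1 - 3 * t 0 1 := by
    apply eq_of_cast (p := p) _ (by linarith only [hp, b01, a11, b41]) (by linarith only [hp, a01, b11, a41])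
    push_cast; simp only [hcast, pt]; simp; ring
  have r4 : t 3 2 = t 0 2 - 3 * t 1 2 + 3 * t 2 2 := by
    apply eq_of_cast (p := p) _ (by linarith only [hp, a02, b12, a22, b32]) (by linarith only [hp, b02, a12, b22, a32])
    push_cast; simp only [hcast, pt]; simp; ring
  have r5 : t 4 2 = 3 * t 0 2 - 8 * t 1 2 + 6 * t 2 2 := by
    apply eq_of_cast (p := p) _ (by linarith only [hp, a02, b12, a22, b42]) (by linarith only [hp, b02, a12, b22, a42])
    push_cast; simp only [hcast, pt]; simp; ring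
  have r6 : t 4 3 = -t 0 3 + 4 * t 1 3 - 6 * t 2 3 + 4 * t 3 3 := by
    apply eq_of_cast (p := p) _ (by linarith only [hp, b03, a13, b23, a33, b43]) (by linarith only [hp, a03, b13, a23, b33, a43])
    push_cast; simp only [hcast, pt]; simp; ring
  have r7 : 6 * t 5 1 = 6 * t 0 1 - 6 * (t 0 2 - 2 * t 1 2 + t 2 2) -
      (t 0 3 - 3 * t 1 3 + 3 * t 2 3 - t 3 3) := by
    apply eq_of_cast (p := p) _ (by linarith only [hp, a01, b02, b03, a12, a13, b22, b23, a33, b51]) (by linarith only [hp, b01, a02, a03, b12, b13, a22, a23, b33, a51])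
    push_cast; simp only [hcast, pt]; simp; ring
  have r8 : 6 * t 6 1 = 12 * t 1 1 - 6 * t 0 1 - (t 0 3 - 3 * t 1 3 + 3 * t 2 3 - t 3 3) := by
    apply eq_of_cast (p := p) _ (by linarith only [hp, b01, b03, a11, a13, b23, a33, b61]) (by linarith only [hp, a01, a03, b11, b13, a23, b33, a61])
    push_cast; simp only [hcast, pt]; simp; ring
  have r9 : 6 * t 7 1 = 6 * t 0 1 + 6 * (t 0 2 - 2 * t 1 2 + t 2 2) -
      (t 0 3 - 3 * t 1 3 + 3 * t 2 3 - t 3 3) := by
    apply eq_of_cast (p := p) _ (by linarith only [hp, a01, a02, b03, b12, a13, a22, b23, a33, b71]) (by linarith only [hp, b01, b02, a03, a12, b13, b22, a23, b33, a71])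
    push_cast; simp only [hcast, pt]; simp; ring
  have key : ∑ j, Nint (cT j) (cz j) B.val (pt (x.val : ℤ) (y.val : ℤ) j)
      (t j 1) (t j 2) (t j 3) = 0 := by
    generalize ((x.val : ℕ) : ℤ) = X
    generalize ((y.val : ℕ) : ℤ) = Y
    generalize ((B.val : ℕ) : ℤ) = β
    simp only [Fin.sum_univ_eight, Nint, cT, cz, pt]
    simp only [Matrix.cons_val_zero, Matrix.cons_val_one, Matrix.cons_val]
    linear_combination (6 * (X + 2 * Y) ^ 3 + 12 * (X + 2 * Y)) * r1 - 4 * (X + 3 * Y) ^ 3 * r2 +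
      (X + 4 * Y) ^ 3 * r3 + 8 * (X + 3 * Y) ^ 2 * r4 - 2 * (X + 4 * Y) ^ 2 * r5 +
      (X + 4 * Y) * r6 + (X + (Y ^ 3 - 2 * Y ^ 2)) * r7 - 2 * (X + (Y ^ 3 + 2 * Y)) * r8 +
      (X + (Y ^ 3 + 2 * Y ^ 2)) * r9
  rw [key]; simp

end Pool.Agent.Work.MP_31941f_co
end
end

-- merged part: Pool.Agent.Work.MP_31941f_co.Alg
section
/-!
The algebraic relations of the progression have degree at most three.
-/

namespace Pool.Agent.Work.MP_31941f_co

open Polynomial

/-- Pointwise form of a relation. -/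
def RelPt (Q : Fin 8 → ℤ[X]) : Prop := ∀ x y : ℤ, ∑ j, (Q j).eval (pt x y j) = 0

theorem relPt_of_isRelation {Q : Fin 8 → ℤ[X]} (h : IsRelation exP Q) : RelPt Q := by
  intro x y
  have h1 := congrArg (MvPolynomial.aeval (R := ℤ) (![x, y] : Fin 2 → ℤ)) h
  rw [map_sum, map_zero] at h1
  rw [← h1]
  refine Finset.sum_congr rfl fun j _ => ?_
  rw [← Polynomial.aeval_algHom_apply, map_add, ← Polynomial.aeval_algHom_apply]
  simp only [MvPolynomial.aeval_X, Matrix.cons_val_zero, Matrix.cons_val_one]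
  rw [pt_eq, coe_aeval_eq_eval]

theorem pt_shift (x y : ℤ) (j : Fin 8) : pt x y j = x + pt 0 y j := by
  fin_cases j <;> simp [pt]

theorem RelPt.deriv {Q : Fin 8 → ℤ[X]} (h : RelPt Q) : RelPt (fun j => derivative (Q j)) := by
  intro x y
  have h1 : ∑ j, (Q j).comp (X + C (pt 0 y j)) = 0 := by
    apply Polynomial.funext
    intro r
    rw [eval_finsetSum, eval_zero]
    refine Eq.trans (Finset.sum_congr rfl fun j _ => ?_) (h r y)
    rw [eval_comp, pt_shift r y j]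
    simp
  have h2 := congrArg (fun q => (derivative q).eval x) h1
  simp only [derivative_sum, eval_finsetSum, derivative_zero, eval_zero] at h2
  rw [← h2]
  refine Finset.sum_congr rfl fun j _ => ?_
  rw [derivative_comp, eval_mul, eval_comp, pt_shift x y j]
  simp

theorem coeffs_zero (n : ℕ) (c : ℕ → ℤ) (h : ∀ y : ℤ, ∑ i ∈ Finset.range n, c i * y ^ i = 0) :
    ∀ i < n, c i = 0 := by
  intro i hi
  have h1 : ∑ i ∈ Finset.range n, monomial i (c i) = 0 := by
    apply Polynomial.funext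
    intro y
    rw [eval_finsetSum, eval_zero, ← h y]
    simp [eval_monomial]
  have h2 := congrArg (fun q => coeff q i) h1
  simpa [finsetSum_coeff, coeff_monomial, hi] using h2

theorem Alg_list : ∀ l : List ℤ,
    (∀ y : ℤ, y ≠ 0 → l.foldr (fun c s => c + y * s) 0 = 0) → ∀ c ∈ l, c = 0
  | [], _ => by simp
  | c :: t, h => by
    have hc : c = 0 := Int.eq_zero_of_abs_lt_dvd (m := |c| + 1)
      ⟨_, (eq_neg_of_add_eq_zero_left (h (|c| + 1) (by positivity))).trans (mul_neg _ _).symm⟩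
      (lt_add_one _)
    refine List.forall_mem_cons.2 ⟨hc, Alg_list t fun y hy => ?_⟩
    have := h y hy
    rw [List.foldr_cons, hc, zero_add] at this
    exact (mul_eq_zero.1 this).resolve_left hy

theorem Alg_C0 (a : Fin 8 → ℕ → ℤ)
    (E0 : ∀ y : ℤ, ∑ j, (a j 0 + a j 1 * pt 0 y j + a j 2 * pt 0 y j ^ 2 +
      a j 3 * pt 0 y j ^ 3 + a j 4 * pt 0 y j ^ 4) = 0) :
    ∀ c ∈ [a 0 0 + a 1 0 + a 2 0 + a 3 0 + a 4 0 + a 5 0 + a 6 0 + a 7 0,
      a 1 1 + 2 * a 2 1 + 3 * a 3 1 + 4 * a 4 1 + 2 * a 6 1,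
      a 1 2 + 4 * a 2 2 + 9 * a 3 2 + 16 * a 4 2 - 2 * a 5 1 + 4 * a 6 2 + 2 * a 7 1,
      a 1 3 + 8 * a 2 3 + 27 * a 3 3 + 64 * a 4 3 + a 5 1 + a 6 1 + 8 * a 6 3 + a 7 1,
      a 1 4 + 16 * a 2 4 + 81 * a 3 4 + 256 * a 4 4 + 4 * a 5 2 + 4 * a 6 2 + 16 * a 6 4 + 4 * a 7 2,
      -4 * a 5 2 + 12 * a 6 3 + 4 * a 7 2,
      a 5 2 - 8 * a 5 3 + a 6 2 + 32 * a 6 4 + a 7 2 + 8 * a 7 3,
      12 * a 5 3 + 6 * a 6 3 + 12 * a 7 3,
      -6 * a 5 3 + 16 * a 5 4 + 24 * a 6 4 + 6 * a 7 3 + 16 * a 7 4,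
      a 5 3 - 32 * a 5 4 + a 6 3 + a 7 3 + 32 * a 7 4,
      24 * a 5 4 + 8 * a 6 4 + 24 * a 7 4,
      -8 * a 5 4 + 8 * a 7 4,
      a 5 4 + a 6 4 + a 7 4], c = 0 := Alg_list _ (by
    intro y _
    have h0 := E0 y
    simp only [Fin.sum_univ_eight, pt, Matrix.cons_val_zero, Matrix.cons_val_one,
      Matrix.cons_val] at h0
    simp only [List.foldr_cons, List.foldr_nil]
    apply mul_left_cancel₀ (by norm_num : (1 : ℤ) ≠ 0)
    linear_combination 1 * h0)

theorem Alg_C1 (a : Fin 8 → ℕ → ℤ)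
    (E1 : ∀ y : ℤ, 12 * ∑ j, (a j 1 + 2 * a j 2 * pt 0 y j +
      3 * a j 3 * pt 0 y j ^ 2 + 4 * a j 4 * pt 0 y j ^ 3) = 0) :
    ∀ c ∈ [a 0 1 + a 1 1 + a 2 1 + a 3 1 + a 4 1 + a 5 1 + a 6 1 + a 7 1,
      2 * a 1 2 + 4 * a 2 2 + 6 * a 3 2 + 8 * a 4 2 + 4 * a 6 2,
      3 * a 1 3 + 12 * a 2 3 + 27 * a 3 3 + 48 * a 4 3 - 4 * a 5 2 + 12 * a 6 3 + 4 * a 7 2,
      4 * a 1 4 + 32 * a 2 4 + 108 * a 3 4 + 256 * a 4 4 + 2 * a 5 2 + 2 * a 6 2 + 32 * a 6 4 + 2 * a 7 2,
      12 * a 5 3 + 12 * a 6 3 + 12 * a 7 3,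
      -12 * a 5 3 + 48 * a 6 4 + 12 * a 7 3,
      3 * a 5 3 - 32 * a 5 4 + 3 * a 6 3 + 3 * a 7 3 + 32 * a 7 4,
      48 * a 5 4 + 24 * a 6 4 + 48 * a 7 4,
      -24 * a 5 4 + 24 * a 7 4,
      4 * a 5 4 + 4 * a 6 4 + 4 * a 7 4], c = 0 := Alg_list _ (by
    intro y _
    have h0 := E1 y
    simp only [Fin.sum_univ_eight, pt, Matrix.cons_val_zero, Matrix.cons_val_one,
      Matrix.cons_val] at h0
    simp only [List.foldr_cons, List.foldr_nil]
    apply mul_left_cancel₀ (by norm_num : (12 : ℤ) ≠ 0)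
    linear_combination h0)

theorem Alg_C2 (a : Fin 8 → ℕ → ℤ)
    (E2 : ∀ y : ℤ, 24 * ∑ j, (a j 2 + 3 * a j 3 * pt 0 y j + 6 * a j 4 * pt 0 y j ^ 2) = 0) :
    ∀ c ∈ [a 0 2 + a 1 2 + a 2 2 + a 3 2 + a 4 2 + a 5 2 + a 6 2 + a 7 2,
      3 * a 1 3 + 6 * a 2 3 + 9 * a 3 3 + 12 * a 4 3 + 6 * a 6 3,
      6 * a 1 4 + 24 * a 2 4 + 54 * a 3 4 + 96 * a 4 4 - 6 * a 5 3 + 24 * a 6 4 + 6 * a 7 3,
      3 * a 5 3 + 3 * a 6 3 + 3 * a 7 3,
      24 * a 5 4 + 24 * a 6 4 + 24 * a 7 4,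
      -24 * a 5 4 + 24 * a 7 4,
      6 * a 5 4 + 6 * a 6 4 + 6 * a 7 4], c = 0 := Alg_list _ (by
    intro y _
    have h0 := E2 y
    simp only [Fin.sum_univ_eight, pt, Matrix.cons_val_zero, Matrix.cons_val_one,
      Matrix.cons_val] at h0
    simp only [List.foldr_cons, List.foldr_nil]
    apply mul_left_cancel₀ (by norm_num : (24 : ℤ) ≠ 0)
    linear_combination h0)

theorem Alg_C3 (a : Fin 8 → ℕ → ℤ)
    (E3 : ∀ y : ℤ, 12 * ∑ j, (a j 3 + 4 * a j 4 * pt 0 y j) = 0) :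
    ∀ c ∈ [a 0 3 + a 1 3 + a 2 3 + a 3 3 + a 4 3 + a 5 3 + a 6 3 + a 7 3,
      4 * a 1 4 + 8 * a 2 4 + 12 * a 3 4 + 16 * a 4 4 + 8 * a 6 4,
      -8 * a 5 4 + 8 * a 7 4,
      4 * a 5 4 + 4 * a 6 4 + 4 * a 7 4], c = 0 := Alg_list _ (by
    intro y _
    have h0 := E3 y
    simp only [Fin.sum_univ_eight, pt, Matrix.cons_val_zero, Matrix.cons_val_one,
      Matrix.cons_val] at h0
    simp only [List.foldr_cons, List.foldr_nil]
    apply mul_left_cancel₀ (by norm_num : (12 : ℤ) ≠ 0)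
    linear_combination h0)

theorem step_four {Q : Fin 8 → ℤ[X]} (h : RelPt Q) (hd : ∀ j, (Q j).natDegree ≤ 4) :
    ∀ j, (Q j).natDegree ≤ 3 := by
  have he : ∀ j z, (Q j).eval z = (Q j).coeff 0 + (Q j).coeff 1 * z + (Q j).coeff 2 * z ^ 2 +
      (Q j).coeff 3 * z ^ 3 + (Q j).coeff 4 * z ^ 4 := by
    intro j z
    rw [eval_eq_sum_range' (n := 5) (by have := hd j; omega)]
    simp [Finset.sum_range_succ]
  obtain ⟨a, ha⟩ : ∃ a : Fin 8 → ℕ → ℤ, ∀ j k, (Q j).coeff k = a j k := ⟨_, fun _ _ => rfl⟩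
  have H : ∀ x y : ℤ, ∑ j, (a j 0 + a j 1 * (x + pt 0 y j) + a j 2 * (x + pt 0 y j) ^ 2 +
      a j 3 * (x + pt 0 y j) ^ 3 + a j 4 * (x + pt 0 y j) ^ 4) = 0 := by
    intro x y
    refine Eq.trans ?_ (h x y)
    simp only [he, ha, pt_shift x y]
  simp only [Fin.sum_univ_eight] at H
  have E0 : ∀ y : ℤ, ∑ j, (a j 0 + a j 1 * pt 0 y j + a j 2 * pt 0 y j ^ 2 +
      a j 3 * pt 0 y j ^ 3 + a j 4 * pt 0 y j ^ 4) = 0 := by
    intro y
    simp only [Fin.sum_univ_eight]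
    linear_combination H 0 y
  have E1 : ∀ y : ℤ, 12 * ∑ j, (a j 1 + 2 * a j 2 * pt 0 y j +
      3 * a j 3 * pt 0 y j ^ 2 + 4 * a j 4 * pt 0 y j ^ 3) = 0 := by
    intro y
    simp only [Fin.sum_univ_eight]
    linear_combination H (-2) y - 8 * H (-1) y + 8 * H 1 y - H 2 y
  have E2 : ∀ y : ℤ, 24 * ∑ j, (a j 2 + 3 * a j 3 * pt 0 y j + 6 * a j 4 * pt 0 y j ^ 2) = 0 := by
    intro y
    simp only [Fin.sum_univ_eight]
    linear_combination -H (-2) y + 16 * H (-1) y - 30 * H 0 y + 16 * H 1 y - H 2 y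
  have E3 : ∀ y : ℤ, 12 * ∑ j, (a j 3 + 4 * a j 4 * pt 0 y j) = 0 := by
    intro y
    simp only [Fin.sum_univ_eight]
    linear_combination -H (-2) y + 2 * H (-1) y - 2 * H 1 y + H 2 y
  have E4 : 24 * ∑ j, a j 4 = 0 := by
    simp only [Fin.sum_univ_eight]
    linear_combination H (-2) 0 - 4 * H (-1) 0 + 6 * H 0 0 - 4 * H 1 0 + H 2 0
  clear H
  have C0 := Alg_C0 a E0
  simp only [List.forall_mem_cons] at C0
  obtain ⟨c0_0, c0_1, c0_2, c0_3, c0_4, c0_5, c0_6, c0_7, c0_8, c0_9, c0_10, c0_11, c0_12, -⟩ := C0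
  have C1 := Alg_C1 a E1
  simp only [List.forall_mem_cons] at C1
  obtain ⟨c1_0, c1_1, c1_2, c1_3, c1_4, c1_5, c1_6, c1_7, c1_8, c1_9, -⟩ := C1
  have C2 := Alg_C2 a E2
  simp only [List.forall_mem_cons] at C2
  obtain ⟨c2_0, c2_1, c2_2, c2_3, c2_4, c2_5, c2_6, -⟩ := C2
  have C3 := Alg_C3 a E3
  simp only [List.forall_mem_cons] at C3
  obtain ⟨c3_0, c3_1, c3_2, c3_3, -⟩ := C3
  simp only [Fin.sum_univ_eight] at E4
  have q5 : a 5 4 = 0 := by linarith only [c3_3, c3_2, c1_7]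
  have q6 : a 6 4 = 0 := by linarith only [c3_3, c3_2, c1_7]
  have q7 : a 7 4 = 0 := by linarith only [c3_3, c3_2, c1_7]
  have r5 : a 5 3 = 0 := by linarith only [q5, q6, q7, c1_6, c1_5, c0_7]
  have r6 : a 6 3 = 0 := by linarith only [q5, q6, q7, c1_6, c1_5, c0_7]
  have r7 : a 7 3 = 0 := by linarith only [q5, q6, q7, c1_6, c1_5, c0_7]
  have q1 : a 1 4 = 0 := by
    linarith only [q5, q6, q7, r5, r6, r7, c0_6, c0_5, c0_4, c1_3, c2_2, c3_1]
  have q2 : a 2 4 = 0 := by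
    linarith only [q5, q6, q7, r5, r6, r7, c0_6, c0_5, c0_4, c1_3, c2_2, c3_1]
  have q3 : a 3 4 = 0 := by
    linarith only [q5, q6, q7, r5, r6, r7, c0_6, c0_5, c0_4, c1_3, c2_2, c3_1]
  have q4 : a 4 4 = 0 := by
    linarith only [q5, q6, q7, r5, r6, r7, c0_6, c0_5, c0_4, c1_3, c2_2, c3_1]
  have q0 : a 0 4 = 0 := by linarith only [q1, q2, q3, q4, q5, q6, q7, E4]
  have q : ∀ j, a j 4 = 0 := by
    intro j
    fin_cases j
    exacts [q0, q1, q2, q3, q4, q5, q6, q7]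
  intro j
  rw [natDegree_le_iff_coeff_eq_zero]
  intro N hN
  by_cases h4 : N = 4
  · rw [h4, ha, q]
  · exact coeff_eq_zero_of_natDegree_lt (by have := hd j; omega)

theorem RelPt.natDegree_le : ∀ (D : ℕ) (Q : Fin 8 → ℤ[X]), RelPt Q → (∀ j, (Q j).natDegree ≤ D) →
    ∀ j, (Q j).natDegree ≤ 3 := by
  intro D
  induction D with
  | zero => intro Q _ hd j; exact (hd j).trans (by norm_num)
  | succ D ih =>
    intro Q h hd
    apply step_four h
    intro j
    have h1 := ih _ h.deriv (fun j => by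
      have := natDegree_derivative (Q j)
      have := hd j
      omega) j
    have := natDegree_derivative (Q j)
    omega

theorem algBound_three (j : Fin 8) : AlgBound exP j 3 := by
  intro Q hQ
  exact RelPt.natDegree_le (Finset.univ.sup fun j => (Q j).natDegree) Q (relPt_of_isRelation hQ)
    (fun j => Finset.le_sup (f := fun j => (Q j).natDegree) (Finset.mem_univ j)) j

theorem isRelation_cubic :
    IsRelation exP ![X ^ 3, -4 * X ^ 3, 6 * X ^ 3, -4 * X ^ 3, X ^ 3, 0, 0, 0] := by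
  unfold IsRelation
  have h : ∀ j, (MvPolynomial.X 0 + aeval (MvPolynomial.X 1) (withZero exP j) :
      MvPolynomial (Fin 2) ℤ) = pt (MvPolynomial.X 0) (MvPolynomial.X 1) j := by
    intro j
    fin_cases j <;> simp [withZero, exP, pt, map_ofNat]
  change ∑ j : Fin 8, _ = _
  simp only [h, Fin.sum_univ_eight, pt, Matrix.cons_val_zero, Matrix.cons_val_one,
    Matrix.cons_val, map_mul, map_pow, aeval_X, map_neg, map_ofNat, map_zero]
  ring

theorem isLeast_algBound : IsLeast {s | AlgBound exP 4 s} 3 := by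
  refine ⟨algBound_three 4, fun s hs => ?_⟩
  have := hs _ isRelation_cubic
  simpa using this

end Pool.Agent.Work.MP_31941f_co
end
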