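import Pool.Agent.Work.MP_31941f_co.Alg

-- merged part: Pool.Agent.Work.MP_31941f_co.Cube
section
/-!
The fourth difference of the phase at the index 4 on the support of the cutoffs.
-/

namespace Pool.Agent.Work.MP_31941f_co

open Finset

set_option linter.unusedSimpArgs false

theorem sum16 {M : Type*} [AddCommMonoid M] (F : (Fin 4 → Fin 2) → M) :
    ∑ ω, F ω = ∑ a, ∑ b, ∑ c, ∑ d, F ![a, b, c, d] := by
  simp only [sum_fun_succ, Fintype.sum_unique]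
  rfl

/-- The coefficients of the linear form. -/
def gam (H : Fin 4 → ℤ) : Fin 14 → ℤ :=
  ![6 * H 1 * H 2 * H 3, 6 * H 0 * H 2 * H 3, 6 * H 0 * H 1 * H 3, 6 * H 0 * H 1 * H 2,
    -4 * H 2 * H 3, -4 * H 1 * H 3, -4 * H 1 * H 2, -4 * H 0 * H 3, -4 * H 0 * H 2,
    -4 * H 0 * H 1, H 0, H 1, H 2, H 3]

variable {p : ℕ} [Fact p.Prime]

/-- The vertices of the cube. -/
def vtx {R : Type*} [CommRing R] (x : R) (h : Fin 4 → R) (ω : Fin 4 → Fin 2) : R :=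
  x + ∑ j, ((ω j : ℕ) : R) * h j

/-- A small lift of `B * y ^ k`. -/
def Cube_ok (B y : ZMod p) (k : ℕ) (z : ℤ) : Prop :=
  (-(p : ℤ) ≤ 100 * z ∧ 100 * z ≤ p) ∧ (z : ZMod p) = B * y ^ k

theorem Cube_d2 {B y u v : ZMod p} {ae a0 a1 a01 : ℤ}
    (hae : Cube_ok B y 1 ae)
    (ha0 : Cube_ok B (y + u) 1 a0)
    (ha1 : Cube_ok B (y + v) 1 a1)
    (ha01 : Cube_ok B (y + u + v) 1 a01) :
    a01 = -ae + a0 + a1 := by
  have hp : (0 : ℤ) < p := by exact_mod_cast (Fact.out : p.Prime).pos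
  apply eq_of_cast (p := p) _ (by linarith only [hp, hae.1.1, hae.1.2, ha0.1.1, ha0.1.2, ha1.1.1, ha1.1.2, ha01.1.1, ha01.1.2])
    (by linarith only [hp, hae.1.1, hae.1.2, ha0.1.1, ha0.1.2, ha1.1.1, ha1.1.2, ha01.1.1, ha01.1.2])
  push_cast
  rw [hae.2, ha0.2, ha1.2, ha01.2]
  ring

theorem Cube_d3 {B y u v w : ZMod p} {ae a0 a1 a2 a01 a02 a12 a012 : ℤ}
    (hae : Cube_ok B y 2 ae)
    (ha0 : Cube_ok B (y + u) 2 a0)
    (ha1 : Cube_ok B (y + v) 2 a1)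
    (ha2 : Cube_ok B (y + w) 2 a2)
    (ha01 : Cube_ok B (y + u + v) 2 a01)
    (ha02 : Cube_ok B (y + u + w) 2 a02)
    (ha12 : Cube_ok B (y + v + w) 2 a12)
    (ha012 : Cube_ok B (y + u + v + w) 2 a012) :
    a012 = ae - a0 - a1 - a2 + a01 + a02 + a12 := by
  have hp : (0 : ℤ) < p := by exact_mod_cast (Fact.out : p.Prime).pos
  apply eq_of_cast (p := p) _ (by linarith only [hp, hae.1.1, hae.1.2, ha0.1.1, ha0.1.2, ha1.1.1, ha1.1.2, ha2.1.1, ha2.1.2, ha01.1.1, ha01.1.2, ha02.1.1, ha02.1.2, ha12.1.1, ha12.1.2, ha012.1.1, ha012.1.2])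
    (by linarith only [hp, hae.1.1, hae.1.2, ha0.1.1, ha0.1.2, ha1.1.1, ha1.1.2, ha2.1.1, ha2.1.2, ha01.1.1, ha01.1.2, ha02.1.1, ha02.1.2, ha12.1.1, ha12.1.2, ha012.1.1, ha012.1.2])
  push_cast
  rw [hae.2, ha0.2, ha1.2, ha2.2, ha01.2, ha02.2, ha12.2, ha012.2]
  ring

theorem Cube_d4 {B y u v w z : ZMod p} {ae a0 a1 a2 a3 a01 a02 a03 a12 a13 a23 a012 a013 a023 a123 a0123 : ℤ}
    (hae : Cube_ok B y 3 ae)
    (ha0 : Cube_ok B (y + u) 3 a0)
    (ha1 : Cube_ok B (y + v) 3 a1)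
    (ha2 : Cube_ok B (y + w) 3 a2)
    (ha3 : Cube_ok B (y + z) 3 a3)
    (ha01 : Cube_ok B (y + u + v) 3 a01)
    (ha02 : Cube_ok B (y + u + w) 3 a02)
    (ha03 : Cube_ok B (y + u + z) 3 a03)
    (ha12 : Cube_ok B (y + v + w) 3 a12)
    (ha13 : Cube_ok B (y + v + z) 3 a13)
    (ha23 : Cube_ok B (y + w + z) 3 a23)
    (ha012 : Cube_ok B (y + u + v + w) 3 a012)
    (ha013 : Cube_ok B (y + u + v + z) 3 a013)
    (ha023 : Cube_ok B (y + u + w + z) 3 a023)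
    (ha123 : Cube_ok B (y + v + w + z) 3 a123)
    (ha0123 : Cube_ok B (y + u + v + w + z) 3 a0123) :
    a0123 = -ae + a0 + a1 + a2 + a3 - a01 - a02 - a03 - a12 - a13 - a23 + a012 + a013 + a023 + a123 := by
  have hp : (0 : ℤ) < p := by exact_mod_cast (Fact.out : p.Prime).pos
  apply eq_of_cast (p := p) _ (by linarith only [hp, hae.1.1, hae.1.2, ha0.1.1, ha0.1.2, ha1.1.1, ha1.1.2, ha2.1.1, ha2.1.2, ha3.1.1, ha3.1.2, ha01.1.1, ha01.1.2, ha02.1.1, ha02.1.2, ha03.1.1, ha03.1.2, ha12.1.1, ha12.1.2, ha13.1.1, ha13.1.2, ha23.1.1, ha23.1.2, ha012.1.1, ha012.1.2, ha013.1.1, ha013.1.2, ha023.1.1, ha023.1.2, ha123.1.1, ha123.1.2, ha0123.1.1, ha0123.1.2])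
    (by linarith only [hp, hae.1.1, hae.1.2, ha0.1.1, ha0.1.2, ha1.1.1, ha1.1.2, ha2.1.1, ha2.1.2, ha3.1.1, ha3.1.2, ha01.1.1, ha01.1.2, ha02.1.1, ha02.1.2, ha03.1.1, ha03.1.2, ha12.1.1, ha12.1.2, ha13.1.1, ha13.1.2, ha23.1.1, ha23.1.2, ha012.1.1, ha012.1.2, ha013.1.1, ha013.1.2, ha023.1.1, ha023.1.2, ha123.1.1, ha123.1.2, ha0123.1.1, ha0123.1.2])
  push_cast
  rw [hae.2, ha0.2, ha1.2, ha2.2, ha3.2, ha01.2, ha02.2, ha03.2, ha12.2, ha13.2, ha23.2, ha012.2, ha013.2, ha023.2, ha123.2, ha0123.2]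
  ring

theorem Cube_e1 {B y u : ZMod p} {ae a0 : ℤ}
    (hae : Cube_ok B y 1 ae)
    (ha0 : Cube_ok B (y + u) 1 a0) :
    ((-ae + a0 : ℤ) : ZMod p) = B * u ∧
      8 * |-ae + a0| ≤ p := by
  have hp : (0 : ℤ) < p := by exact_mod_cast (Fact.out : p.Prime).pos
  constructor
  · push_cast
    rw [hae.2, ha0.2]
    ring
  · rcases abs_cases (-ae + a0) with ⟨h, -⟩ | ⟨h, -⟩ <;> rw [h] <;>
      linarith only [hp, hae.1.1, hae.1.2, ha0.1.1, ha0.1.2]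

theorem Cube_e2 {B y u v : ZMod p} {ae a0 a1 a01 : ℤ}
    (hae : Cube_ok B y 2 ae)
    (ha0 : Cube_ok B (y + u) 2 a0)
    (ha1 : Cube_ok B (y + v) 2 a1)
    (ha01 : Cube_ok B (y + u + v) 2 a01) :
    ((ae - a0 - a1 + a01 : ℤ) : ZMod p) = B * (2 * u * v) ∧
      8 * |ae - a0 - a1 + a01| ≤ p := by
  have hp : (0 : ℤ) < p := by exact_mod_cast (Fact.out : p.Prime).pos
  constructor
  · push_cast
    rw [hae.2, ha0.2, ha1.2, ha01.2]
    ring
  · rcases abs_cases (ae - a0 - a1 + a01) with ⟨h, -⟩ | ⟨h, -⟩ <;> rw [h] <;>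
      linarith only [hp, hae.1.1, hae.1.2, ha0.1.1, ha0.1.2, ha1.1.1, ha1.1.2, ha01.1.1, ha01.1.2]

theorem Cube_e3 {B y u v w : ZMod p} {ae a0 a1 a2 a01 a02 a12 a012 : ℤ}
    (hae : Cube_ok B y 3 ae)
    (ha0 : Cube_ok B (y + u) 3 a0)
    (ha1 : Cube_ok B (y + v) 3 a1)
    (ha2 : Cube_ok B (y + w) 3 a2)
    (ha01 : Cube_ok B (y + u + v) 3 a01)
    (ha02 : Cube_ok B (y + u + w) 3 a02)
    (ha12 : Cube_ok B (y + v + w) 3 a12)
    (ha012 : Cube_ok B (y + u + v + w) 3 a012) :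
    ((-ae + a0 + a1 + a2 - a01 - a02 - a12 + a012 : ℤ) : ZMod p) = B * (6 * u * v * w) ∧
      8 * |-ae + a0 + a1 + a2 - a01 - a02 - a12 + a012| ≤ p := by
  have hp : (0 : ℤ) < p := by exact_mod_cast (Fact.out : p.Prime).pos
  constructor
  · push_cast
    rw [hae.2, ha0.2, ha1.2, ha2.2, ha01.2, ha02.2, ha12.2, ha012.2]
    ring
  · rcases abs_cases (-ae + a0 + a1 + a2 - a01 - a02 - a12 + a012) with ⟨h, -⟩ | ⟨h, -⟩ <;> rw [h] <;>
      linarith only [hp, hae.1.1, hae.1.2, ha0.1.1, ha0.1.2, ha1.1.1, ha1.1.2, ha2.1.1, ha2.1.2, ha01.1.1, ha01.1.2, ha02.1.1, ha02.1.2, ha12.1.1, ha12.1.2, ha012.1.1, ha012.1.2]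

theorem cube_key (B x : ZMod p) (h : Fin 4 → ZMod p) (hc : ∀ ω, Cut B (vtx x h ω))
    (hD : ∑ ω : Fin 4 → Fin 2, (-1) ^ (∑ j, (ω j : ℕ)) * phase 4 B (vtx x h ω) = 0) :
    ∃ θ : Fin 14 → ℤ, (∀ μ, (θ μ : ZMod p) = B * wv h μ) ∧ (∀ μ, 8 * |θ μ| ≤ p) ∧
      (p : ℤ) ^ 2 ∣ ∑ μ, gam (fun i => ((h i).val : ℤ)) μ * θ μ := by
  have hl : ∀ ω, ((vtx ((x.val : ℕ) : ℤ) (fun i => ((h i).val : ℤ)) ω : ℤ) : ZMod p) =
      vtx x h ω := by
    intro ω
    simp [vtx]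
  have h1 : ∀ ω, phase 4 B (vtx x h ω) = (Nint (cT 4) (cz 4) B.val
      (vtx (x.val : ℤ) (fun i => ((h i).val : ℤ)) ω)
      (th B (vtx x h ω) 1) (th B (vtx x h ω) 2) (th B (vtx x h ω) 3) : ℤ) :=
    fun ω => phase_lift 4 B _ _ (hl ω)
  simp_rw [h1] at hD
  have hD2 : ((∑ ω : Fin 4 → Fin 2, (-1) ^ (∑ j, (ω j : ℕ)) * Nint (cT 4) (cz 4) B.val
      (vtx (x.val : ℤ) (fun i => ((h i).val : ℤ)) ω)
      (th B (vtx x h ω) 1) (th B (vtx x h ω) 2) (th B (vtx x h ω) 3) : ℤ) : ZMod (p ^ 2)) = 0 := by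
    rw [← hD, Int.cast_sum]
    simp only [Int.cast_mul, Int.cast_pow, Int.cast_neg, Int.cast_one]
  rw [ZMod.intCast_zmod_eq_zero_iff_dvd, Nat.cast_pow] at hD2
  have hb := fun ω => cut_bounds (hc ω)
  have hcast := fun ω b => th_cast B (vtx x h ω) b
  obtain ⟨t, ht⟩ : ∃ t : (Fin 4 → Fin 2) → ℕ → ℤ, ∀ ω b, th B (vtx x h ω) b = t ω b :=
    ⟨_, fun _ _ => rfl⟩
  simp only [ht] at hb hcast hD2
  rw [sum16] at hD2
  simp only [Fin.sum_univ_two] at hD2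
  generalize ((x.val : ℕ) : ℤ) = X at hD2
  generalize (fun i => (((h i).val : ℕ) : ℤ)) = H at hD2 ⊢
  generalize ((B.val : ℕ) : ℤ) = β at hD2
  simp only [vtx, Fin.sum_univ_four, Nint, cT, cz, Matrix.cons_val_zero, Matrix.cons_val_one,
    Matrix.cons_val, Fin.val_zero, Fin.val_one, Nat.cast_zero, Nat.cast_one] at hD2
  have ok : ∀ ω y, vtx x h ω = y →
      Cube_ok B y 1 (t ω 1) ∧ Cube_ok B y 2 (t ω 2) ∧ Cube_ok B y 3 (t ω 3) := by
    rintro ω _ rfl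
    exact ⟨⟨(hb ω).1, hcast ω 1⟩, ⟨(hb ω).2.1, hcast ω 2⟩, (hb ω).2.2, hcast ω 3⟩
  obtain ⟨c1_0000, c2_0000, c3_0000⟩ := ok ![0, 0, 0, 0] (x)
    (by simp [vtx, Fin.sum_univ_four, add_assoc])
  obtain ⟨c1_0001, c2_0001, c3_0001⟩ := ok ![0, 0, 0, 1] (x + h 3)
    (by simp [vtx, Fin.sum_univ_four, add_assoc])
  obtain ⟨c1_0010, c2_0010, c3_0010⟩ := ok ![0, 0, 1, 0] (x + h 2)
    (by simp [vtx, Fin.sum_univ_four, add_assoc])
  obtain ⟨c1_0011, c2_0011, c3_0011⟩ := ok ![0, 0, 1, 1] (x + h 2 + h 3)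
    (by simp [vtx, Fin.sum_univ_four, add_assoc])
  obtain ⟨c1_0100, c2_0100, c3_0100⟩ := ok ![0, 1, 0, 0] (x + h 1)
    (by simp [vtx, Fin.sum_univ_four, add_assoc])
  obtain ⟨c1_0101, c2_0101, c3_0101⟩ := ok ![0, 1, 0, 1] (x + h 1 + h 3)
    (by simp [vtx, Fin.sum_univ_four, add_assoc])
  obtain ⟨c1_0110, c2_0110, c3_0110⟩ := ok ![0, 1, 1, 0] (x + h 1 + h 2)
    (by simp [vtx, Fin.sum_univ_four, add_assoc])
  obtain ⟨c1_0111, c2_0111, c3_0111⟩ := ok ![0, 1, 1, 1] (x + h 1 + h 2 + h 3)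
    (by simp [vtx, Fin.sum_univ_four, add_assoc])
  obtain ⟨c1_1000, c2_1000, c3_1000⟩ := ok ![1, 0, 0, 0] (x + h 0)
    (by simp [vtx, Fin.sum_univ_four, add_assoc])
  obtain ⟨c1_1001, c2_1001, c3_1001⟩ := ok ![1, 0, 0, 1] (x + h 0 + h 3)
    (by simp [vtx, Fin.sum_univ_four, add_assoc])
  obtain ⟨c1_1010, c2_1010, c3_1010⟩ := ok ![1, 0, 1, 0] (x + h 0 + h 2)
    (by simp [vtx, Fin.sum_univ_four, add_assoc])
  obtain ⟨c1_1011, c2_1011, c3_1011⟩ := ok ![1, 0, 1, 1] (x + h 0 + h 2 + h 3)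
    (by simp [vtx, Fin.sum_univ_four, add_assoc])
  obtain ⟨c1_1100, c2_1100, c3_1100⟩ := ok ![1, 1, 0, 0] (x + h 0 + h 1)
    (by simp [vtx, Fin.sum_univ_four, add_assoc])
  obtain ⟨c1_1101, c2_1101, c3_1101⟩ := ok ![1, 1, 0, 1] (x + h 0 + h 1 + h 3)
    (by simp [vtx, Fin.sum_univ_four, add_assoc])
  obtain ⟨c1_1110, c2_1110, c3_1110⟩ := ok ![1, 1, 1, 0] (x + h 0 + h 1 + h 2)
    (by simp [vtx, Fin.sum_univ_four, add_assoc])
  obtain ⟨c1_1111, c2_1111, c3_1111⟩ := ok ![1, 1, 1, 1] (x + h 0 + h 1 + h 2 + h 3)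
    (by simp [vtx, Fin.sum_univ_four, add_assoc])
  clear ok hb hcast ht h1 hl hD hc
  generalize t ![0, 0, 0, 0] 1 = t1_0000, t ![0, 0, 0, 0] 2 = t2_0000, t ![0, 0, 0, 0] 3 = t3_0000,
    t ![0, 0, 0, 1] 1 = t1_0001, t ![0, 0, 0, 1] 2 = t2_0001, t ![0, 0, 0, 1] 3 = t3_0001,
    t ![0, 0, 1, 0] 1 = t1_0010, t ![0, 0, 1, 0] 2 = t2_0010, t ![0, 0, 1, 0] 3 = t3_0010,
    t ![0, 0, 1, 1] 1 = t1_0011, t ![0, 0, 1, 1] 2 = t2_0011, t ![0, 0, 1, 1] 3 = t3_0011,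
    t ![0, 1, 0, 0] 1 = t1_0100, t ![0, 1, 0, 0] 2 = t2_0100, t ![0, 1, 0, 0] 3 = t3_0100,
    t ![0, 1, 0, 1] 1 = t1_0101, t ![0, 1, 0, 1] 2 = t2_0101, t ![0, 1, 0, 1] 3 = t3_0101,
    t ![0, 1, 1, 0] 1 = t1_0110, t ![0, 1, 1, 0] 2 = t2_0110, t ![0, 1, 1, 0] 3 = t3_0110,
    t ![0, 1, 1, 1] 1 = t1_0111, t ![0, 1, 1, 1] 2 = t2_0111, t ![0, 1, 1, 1] 3 = t3_0111,
    t ![1, 0, 0, 0] 1 = t1_1000, t ![1, 0, 0, 0] 2 = t2_1000, t ![1, 0, 0, 0] 3 = t3_1000,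
    t ![1, 0, 0, 1] 1 = t1_1001, t ![1, 0, 0, 1] 2 = t2_1001, t ![1, 0, 0, 1] 3 = t3_1001,
    t ![1, 0, 1, 0] 1 = t1_1010, t ![1, 0, 1, 0] 2 = t2_1010, t ![1, 0, 1, 0] 3 = t3_1010,
    t ![1, 0, 1, 1] 1 = t1_1011, t ![1, 0, 1, 1] 2 = t2_1011, t ![1, 0, 1, 1] 3 = t3_1011,
    t ![1, 1, 0, 0] 1 = t1_1100, t ![1, 1, 0, 0] 2 = t2_1100, t ![1, 1, 0, 0] 3 = t3_1100,
    t ![1, 1, 0, 1] 1 = t1_1101, t ![1, 1, 0, 1] 2 = t2_1101, t ![1, 1, 0, 1] 3 = t3_1101,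
    t ![1, 1, 1, 0] 1 = t1_1110, t ![1, 1, 1, 0] 2 = t2_1110, t ![1, 1, 1, 0] 3 = t3_1110,
    t ![1, 1, 1, 1] 1 = t1_1111, t ![1, 1, 1, 1] 2 = t2_1111, t ![1, 1, 1, 1] 3 = t3_1111 at *
  have r1_1111 := Cube_d2 c1_1100 c1_1110 c1_1101 c1_1111
  have r1_0111 := Cube_d2 c1_0100 c1_0110 c1_0101 c1_0111
  have r1_1011 := Cube_d2 c1_1000 c1_1010 c1_1001 c1_1011
  have r1_1101 := Cube_d2 c1_1000 c1_1100 c1_1001 c1_1101
  have r1_1110 := Cube_d2 c1_1000 c1_1100 c1_1010 c1_1110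
  have r1_0011 := Cube_d2 c1_0000 c1_0010 c1_0001 c1_0011
  have r1_0101 := Cube_d2 c1_0000 c1_0100 c1_0001 c1_0101
  have r1_0110 := Cube_d2 c1_0000 c1_0100 c1_0010 c1_0110
  have r1_1001 := Cube_d2 c1_0000 c1_1000 c1_0001 c1_1001
  have r1_1010 := Cube_d2 c1_0000 c1_1000 c1_0010 c1_1010
  have r1_1100 := Cube_d2 c1_0000 c1_1000 c1_0100 c1_1100
  have r2_1111 := Cube_d3 c2_1000 c2_1100 c2_1010 c2_1001 c2_1110 c2_1101 c2_1011 c2_1111
  have r2_0111 := Cube_d3 c2_0000 c2_0100 c2_0010 c2_0001 c2_0110 c2_0101 c2_0011 c2_0111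
  have r2_1011 := Cube_d3 c2_0000 c2_1000 c2_0010 c2_0001 c2_1010 c2_1001 c2_0011 c2_1011
  have r2_1101 := Cube_d3 c2_0000 c2_1000 c2_0100 c2_0001 c2_1100 c2_1001 c2_0101 c2_1101
  have r2_1110 := Cube_d3 c2_0000 c2_1000 c2_0100 c2_0010 c2_1100 c2_1010 c2_0110 c2_1110
  have r3_1111 := Cube_d4 c3_0000 c3_1000 c3_0100 c3_0010 c3_0001 c3_1100 c3_1010 c3_1001 c3_0110 c3_0101 c3_0011 c3_1110 c3_1101 c3_1011 c3_0111 c3_1111
  have e0 := Cube_e1 c1_0000 c1_1000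
  have e1 := Cube_e1 c1_0000 c1_0100
  have e2 := Cube_e1 c1_0000 c1_0010
  have e3 := Cube_e1 c1_0000 c1_0001
  have e4 := Cube_e2 c2_0000 c2_1000 c2_0100 c2_1100
  have e5 := Cube_e2 c2_0000 c2_1000 c2_0010 c2_1010
  have e6 := Cube_e2 c2_0000 c2_1000 c2_0001 c2_1001
  have e7 := Cube_e2 c2_0000 c2_0100 c2_0010 c2_0110
  have e8 := Cube_e2 c2_0000 c2_0100 c2_0001 c2_0101
  have e9 := Cube_e2 c2_0000 c2_0010 c2_0001 c2_0011
  have e10 := Cube_e3 c3_0000 c3_0100 c3_0010 c3_0001 c3_0110 c3_0101 c3_0011 c3_0111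
  have e11 := Cube_e3 c3_0000 c3_1000 c3_0010 c3_0001 c3_1010 c3_1001 c3_0011 c3_1011
  have e12 := Cube_e3 c3_0000 c3_1000 c3_0100 c3_0001 c3_1100 c3_1001 c3_0101 c3_1101
  have e13 := Cube_e3 c3_0000 c3_1000 c3_0100 c3_0010 c3_1100 c3_1010 c3_0110 c3_1110
  refine ⟨![-t1_0000 + t1_1000,
    -t1_0000 + t1_0100,
    -t1_0000 + t1_0010,
    -t1_0000 + t1_0001,
    t2_0000 - t2_1000 - t2_0100 + t2_1100,
    t2_0000 - t2_1000 - t2_0010 + t2_1010,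
    t2_0000 - t2_1000 - t2_0001 + t2_1001,
    t2_0000 - t2_0100 - t2_0010 + t2_0110,
    t2_0000 - t2_0100 - t2_0001 + t2_0101,
    t2_0000 - t2_0010 - t2_0001 + t2_0011,
    -t3_0000 + t3_0100 + t3_0010 + t3_0001 - t3_0110 - t3_0101 - t3_0011 + t3_0111,
    -t3_0000 + t3_1000 + t3_0010 + t3_0001 - t3_1010 - t3_1001 - t3_0011 + t3_1011,
    -t3_0000 + t3_1000 + t3_0100 + t3_0001 - t3_1100 - t3_1001 - t3_0101 + t3_1101,
    -t3_0000 + t3_1000 + t3_0100 + t3_0010 - t3_1100 - t3_1010 - t3_0110 + t3_1110], fun μ => ?_, fun μ => ?_, ?_⟩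
  · fin_cases μ
    exacts [e0.1, e1.1, e2.1, e3.1, e4.1, e5.1, e6.1, e7.1, e8.1, e9.1, e10.1, e11.1, e12.1, e13.1]
  · fin_cases μ
    exacts [e0.2, e1.2, e2.2, e3.2, e4.2, e5.2, e6.2, e7.2, e8.2, e9.2, e10.2, e11.2, e12.2, e13.2]
  · refine hD2.trans (dvd_of_eq ?_)
    simp only [gam, Fin.sum_univ_succ, Matrix.cons_val_zero, Matrix.cons_val_succ,
      Finset.univ_eq_empty, Finset.sum_empty]
    rw [r1_1111, r1_0111, r1_1011, r1_1101, r1_1110, r1_0011, r1_0101, r1_0110, r1_1001, r1_1010, r1_1100, r2_1111, r2_0111, r2_1011, r2_1101, r2_1110, r3_1111]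
    ring

end Pool.Agent.Work.MP_31941f_co
end

-- merged part: Pool.Agent.Work.MP_31941f_co.Avg
section
/-!
Averaging over the parameters `A` and `B`.
-/

namespace Pool.Agent.Work.MP_31941f_co

open Finset

section chars
variable {N : ℕ} [NeZero N]

theorem iter_conj_char (n : ℕ) (t : ZMod N) :
    (starRingEnd ℂ)^[n] (ZMod.stdAddChar t : ℂ) = ZMod.stdAddChar ((-1) ^ n * t) := by
  induction n with
  | zero => simp
  | succ n ih => rw [Function.iterate_succ_apply', ih, conj_char]; congr 1; ring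

theorem iter_conj_zero (n : ℕ) : (starRingEnd ℂ)^[n] (0 : ℂ) = 0 := by
  induction n with
  | zero => simp
  | succ n ih => rw [Function.iterate_succ_apply', ih, map_zero]

theorem prod_char {M : Type*} (s : Finset M) (f : M → ZMod N) :
    ∏ μ ∈ s, (ZMod.stdAddChar (f μ) : ℂ) = ZMod.stdAddChar (∑ μ ∈ s, f μ) := by
  classical
  induction s using Finset.induction_on with
  | empty => simp
  | insert x s hx ih => rw [prod_insert hx, sum_insert hx, ih, AddChar.map_add_eq_mul]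

end chars

variable {p : ℕ} [Fact p.Prime]

/-- The fourth difference of the phase. -/
def dd (B x : ZMod p) (h : Fin 4 → ZMod p) : ZMod (p ^ 2) :=
  ∑ ω : Fin 4 → Fin 2, (-1) ^ (∑ j, (ω j : ℕ)) * phase 4 B (vtx x h ω)

open Classical in
theorem gowersAvg_gfun (A : ZMod (p ^ 2)) (B : ZMod p) :
    gowersAvg p 4 (gfun A B 4) = ((p : ℂ) ^ 5)⁻¹ * ∑ x : ZMod p, ∑ h : Fin 4 → ZMod p,
      if ∀ ω, Cut B (vtx x h ω) then (ZMod.stdAddChar (A * dd B x h) : ℂ) else 0 := by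
  unfold gowersAvg
  congr 1
  refine Finset.sum_congr rfl fun x _ => Finset.sum_congr rfl fun h _ => ?_
  have h1 : ∀ ω : Fin 4 → Fin 2, (starRingEnd ℂ)^[∑ j, (ω j : ℕ)]
      (gfun A B 4 (x + ∑ j, ((ω j : ℕ) : ZMod p) * h j)) =
      if Cut B (vtx x h ω) then
        (ZMod.stdAddChar ((-1) ^ (∑ j, (ω j : ℕ)) * (A * phase 4 B (vtx x h ω))) : ℂ) else 0 := by
    intro ω
    change (starRingEnd ℂ)^[∑ j, (ω j : ℕ)] (gfun A B 4 (vtx x h ω)) = _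
    unfold gfun
    split_ifs
    · exact iter_conj_char _ _
    · exact iter_conj_zero _
  simp_rw [h1]
  rw [Finset.prod_ite_zero, prod_char]
  simp only [mem_univ, forall_true_left]
  congr 2
  unfold dd
  rw [Finset.mul_sum]
  exact Finset.sum_congr rfl fun ω _ => by ring

open Classical in
theorem sum_norm_gowersAvg (B : ZMod p) :
    ∑ A : ZMod (p ^ 2), ‖gowersAvg p 4 (gfun A B 4)‖ = ((p : ℝ) ^ 3)⁻¹ *
      ∑ x : ZMod p, ∑ h : Fin 4 → ZMod p,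
        if (∀ ω, Cut B (vtx x h ω)) ∧ dd B x h = 0 then (1 : ℝ) else 0 := by
  have hp : (p : ℂ) ≠ 0 := by exact_mod_cast (Fact.out : p.Prime).ne_zero
  simp_rw [norm_gowersAvg_succ p 3]
  rw [← Complex.re_sum]
  have : ∑ A : ZMod (p ^ 2), gowersAvg p (3 + 1) (gfun A B 4) =
      ((((p : ℝ) ^ 3)⁻¹ * ∑ x : ZMod p, ∑ h : Fin 4 → ZMod p,
        if (∀ ω, Cut B (vtx x h ω)) ∧ dd B x h = 0 then (1 : ℝ) else 0 : ℝ) : ℂ) := by
    simp_rw [show 3 + 1 = 4 from rfl, gowersAvg_gfun]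
    rw [← Finset.mul_sum, Finset.sum_comm]
    push_cast
    have h1 : ((p : ℂ) ^ 3)⁻¹ = ((p : ℂ) ^ 5)⁻¹ * (p : ℂ) ^ 2 := by field_simp
    rw [h1, mul_assoc, Finset.mul_sum (univ : Finset (ZMod p)) _ ((p : ℂ) ^ 2)]
    congr 1
    refine Finset.sum_congr rfl fun x _ => ?_
    rw [Finset.sum_comm, Finset.mul_sum]
    refine Finset.sum_congr rfl fun h _ => ?_
    by_cases hc : ∀ ω, Cut B (vtx x h ω)
    · simp only [hc, forall_true_iff, if_true, true_and]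
      rw [sum_char]
      split_ifs <;> simp
    · simp [hc]
  rw [this, Complex.ofReal_re]

open Classical in
theorem sum_sum_norm_gowersAvg (hp3 : 3 < p) (T : ℕ) (hT : 1 ≤ T) (hTp : (4 * T) ^ 2 ≤ p)
    (hR : 14 * (4 * T) ^ 4 < p) :
    ∑ B : ZMod p, ∑ A : ZMod (p ^ 2), ‖gowersAvg p 4 (gfun A B 4)‖ ≤
      (p : ℝ) ^ 3 * (1 / T + 4 * ((14 * (4 * T) ^ 4 + 1) ^ 28 + 1 : ℕ) / p) := by
  have hp : (0 : ℝ) < p := by exact_mod_cast (Fact.out : p.Prime).pos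
  have hT' : (0 : ℝ) < T := by exact_mod_cast hT
  simp_rw [sum_norm_gowersAvg]
  rw [← Finset.mul_sum, Finset.sum_comm]
  set R := 14 * (4 * T) ^ 4 with hRdef
  set K : ℕ := (R + 1) ^ 28 + 1 with hK
  have h1 : ∀ (x : ZMod p) (h : Fin 4 → ZMod p), ∑ B : ZMod p,
      (if (∀ ω, Cut B (vtx x h ω)) ∧ dd B x h = 0 then (1 : ℝ) else 0) ≤
      p / T + if ¬ Good R h then (p : ℝ) else 0 := by
    intro x h
    rw [Finset.sum_boole]
    by_cases hg : Good R h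
    · simp only [hg, not_true, if_false, add_zero]
      have := anticonc (wv h) (gam (fun i => ((h i).val : ℤ))) 10 (by simpa [gam] using hg.1) T hT
        hTp (by rw [Fintype.card_fin]; exact hg.2)
        (univ.filter (fun B => (∀ ω, Cut B (vtx x h ω)) ∧ dd B x h = 0)) (by
          intro B hB
          simp only [mem_filter, mem_univ, true_and] at hB
          exact cube_key B x h hB.1 hB.2)
      rw [le_div_iff₀ hT', mul_comm]
      exact_mod_cast this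
    · simp only [hg, not_false_iff, if_true]
      have h2 : ((univ.filter (fun B : ZMod p => (∀ ω, Cut B (vtx x h ω)) ∧
          dd B x h = 0)).card : ℝ) ≤ p := by
        have := card_le_univ (univ.filter (fun B : ZMod p => (∀ ω, Cut B (vtx x h ω)) ∧
          dd B x h = 0))
        rw [ZMod.card] at this
        exact_mod_cast this
      have h3 : (0 : ℝ) ≤ p / T := by positivity
      linarith
  have h2 : ∀ x : ZMod p, ∑ B : ZMod p, ∑ h : Fin 4 → ZMod p,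
      (if (∀ ω, Cut B (vtx x h ω)) ∧ dd B x h = 0 then (1 : ℝ) else 0) ≤
      (p : ℝ) ^ 4 * (p / T) + (K * (4 * p ^ 3)) * p := by
    intro x
    rw [Finset.sum_comm]
    refine (Finset.sum_le_sum fun h _ => h1 x h).trans ?_
    rw [Finset.sum_add_distrib, ← Finset.sum_filter]
    simp only [sum_const, card_univ, Fintype.card_pi, ZMod.card, prod_const, Fintype.card_fin,
      nsmul_eq_mul, Nat.cast_pow]
    have := card_bad hp3 R hR
    have h3 : ((univ.filter (fun h : Fin 4 → ZMod p => ¬ Good R h)).card : ℝ) ≤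
        K * (4 * (p : ℝ) ^ 3) := by exact_mod_cast this
    gcongr
  calc _ ≤ ((p : ℝ) ^ 3)⁻¹ * ∑ x : ZMod p, ((p : ℝ) ^ 4 * (p / T) + (K * (4 * p ^ 3)) * p) := by
        gcongr with x _
        exact h2 x
    _ = _ := by
        simp only [sum_const, card_univ, ZMod.card, nsmul_eq_mul]
        field_simp

open Classical in
theorem countOp_gfun (A : ZMod (p ^ 2)) (B : ZMod p) :
    countOp p exP (gfun A B) = ((((p : ℝ) ^ 2)⁻¹ * ∑ x : ZMod p, ∑ y : ZMod p,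
      if ∀ j, Cut B (pt x y j) then (1 : ℝ) else 0 : ℝ) : ℂ) := by
  unfold countOp
  push_cast
  congr 1
  refine Finset.sum_congr rfl fun x _ => Finset.sum_congr rfl fun y _ => ?_
  simp_rw [pt_eq]
  unfold gfun
  rw [Finset.prod_ite_zero, prod_char]
  simp only [mem_univ, forall_true_left]
  by_cases hc : ∀ j, Cut B (pt x y j)
  · simp only [hc, forall_true_iff, if_true]
    rw [← Finset.mul_sum, sum_phase B x y hc]
    simp
  · simp [hc]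

open Classical in
theorem bohr {ι : Type*} [Fintype ι] (w : ι → ZMod p) :
    p ≤ (univ.filter (fun B : ZMod p => ∀ k, 100 * |(B * w k).valMinAbs| ≤ p)).card *
      100 ^ Fintype.card ι := by
  have hp : 0 < p := (Fact.out : p.Prime).pos
  set cell : ZMod p → Fin 100 := fun v => ⟨v.val * 100 / p, by
    rw [Nat.div_lt_iff_lt_mul hp]
    have := ZMod.val_lt v
    omega⟩ with hcell
  have hc : ∀ v v' : ZMod p, cell v = cell v' → 100 * |(v - v').valMinAbs| ≤ p := by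
    intro v v' h
    have h1 : v.val * 100 / p = v'.val * 100 / p := congrArg Fin.val h
    have h2 := Nat.div_add_mod (v.val * 100) p
    have h3 := Nat.div_add_mod (v'.val * 100) p
    have h4 := Nat.mod_lt (v.val * 100) hp
    have h5 := Nat.mod_lt (v'.val * 100) hp
    rw [h1] at h2
    have h6 := ZMod.natAbs_min_of_le_div_two p (v - v').valMinAbs ((v.val : ℤ) - v'.val)
      (by simp) (ZMod.natAbs_valMinAbs_le _)
    generalize p * (v'.val * 100 / p) = q at h2 h3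
    rw [← Int.natCast_natAbs]
    omega
  set f : ZMod p → ι → Fin 100 := fun B k => cell (B * w k) with hf
  have h1 := Finset.card_le_mul_card_image (f := f) (univ : Finset (ZMod p))
    (univ.filter (fun B : ZMod p => ∀ k, 100 * |(B * w k).valMinAbs| ≤ p)).card (by
      intro a ha
      obtain ⟨B₀, -, rfl⟩ := mem_image.1 ha
      apply Finset.card_le_card_of_injOn (fun B => B - B₀)
      · intro B hB
        simp only [coe_filter, mem_univ, true_and, Set.mem_ofPred_eq] at hB ⊢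
        intro k
        rw [sub_mul]
        exact hc _ _ (congrFun hB k)
      · intro B _ B' _ h
        exact sub_left_injective h)
  rw [card_univ, ZMod.card] at h1
  refine h1.trans (Nat.mul_le_mul_left _ ?_)
  refine (card_le_univ _).trans ?_
  simp

open Classical in
theorem sum_count :
    (p : ℝ) / 100 ^ 24 ≤ ∑ B : ZMod p, ((p : ℝ) ^ 2)⁻¹ * ∑ x : ZMod p, ∑ y : ZMod p,
      if ∀ j, Cut B (pt x y j) then (1 : ℝ) else 0 := by
  have hp : (0 : ℝ) < p := by exact_mod_cast (Fact.out : p.Prime).pos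
  rw [← Finset.mul_sum, Finset.sum_comm]
  have h1 : ∀ x y : ZMod p, (p : ℝ) / 100 ^ 24 ≤
      ∑ B : ZMod p, if ∀ j, Cut B (pt x y j) then (1 : ℝ) else 0 := by
    intro x y
    rw [Finset.sum_boole, div_le_iff₀ (by positivity)]
    have h2 := bohr (fun k : Fin 8 × Fin 3 => pt x y k.1 ^ ((k.2 : ℕ) + 1))
    have h3 : univ.filter (fun B : ZMod p => ∀ k : Fin 8 × Fin 3,
        100 * |(B * pt x y k.1 ^ ((k.2 : ℕ) + 1)).valMinAbs| ≤ p) ⊆
        univ.filter (fun B : ZMod p => ∀ j, Cut B (pt x y j)) := by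
      intro B hB
      simp only [mem_filter, mem_univ, true_and] at hB ⊢
      intro j
      exact ⟨hB (j, 0), hB (j, 1), hB (j, 2)⟩
    have h4 := h2.trans (Nat.mul_le_mul_right _ (card_le_card h3))
    simp only [Fintype.card_prod, Fintype.card_fin] at h4
    exact_mod_cast h4
  have h2 : ∀ x : ZMod p, p * ((p : ℝ) / 100 ^ 24) ≤
      ∑ B : ZMod p, ∑ y : ZMod p, if ∀ j, Cut B (pt x y j) then (1 : ℝ) else 0 := by
    intro x
    rw [Finset.sum_comm]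
    refine le_trans ?_ (Finset.sum_le_sum fun y _ => h1 x y)
    simp [ZMod.card]
  calc (p : ℝ) / 100 ^ 24 = ((p : ℝ) ^ 2)⁻¹ * ∑ x : ZMod p, p * ((p : ℝ) / 100 ^ 24) := by
        simp only [sum_const, card_univ, ZMod.card, nsmul_eq_mul]
        field_simp
    _ ≤ _ := by
        gcongr with x _
        exact h2 x

theorem not_star_three : ¬ Star exP 4 3 := by
  classical
  intro hs
  obtain ⟨c, hc⟩ : ∃ c : ℝ, c = 1 / 100 ^ 24 := ⟨_, rfl⟩
  have hc0 : 0 < c := by rw [hc]; positivity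
  obtain ⟨δ, hδ, p₀, hmain⟩ := hs (c / 2) (by positivity)
  obtain ⟨η, hη⟩ : ∃ η : ℝ, η = c * δ ^ 16 / 4 := ⟨_, rfl⟩
  have hη0 : 0 < η := by rw [hη]; positivity
  obtain ⟨T, hT⟩ := exists_nat_gt (1 / η)
  have hT0 : (0 : ℝ) < T := lt_trans (by positivity) hT
  have hT1 : 1 ≤ T := by exact_mod_cast hT0
  obtain ⟨K, hK⟩ : ∃ K : ℕ, K = (14 * (4 * T) ^ 4 + 1) ^ 28 + 1 := ⟨_, rfl⟩
  obtain ⟨U, hU⟩ := exists_nat_gt (4 * K / η)
  obtain ⟨p, hpge, hpp⟩ := Nat.exists_infinite_primes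
    (p₀ + 4 + (4 * T) ^ 2 + 14 * (4 * T) ^ 4 + U)
  have : Fact p.Prime := ⟨hpp⟩
  have hp : (0 : ℝ) < p := by exact_mod_cast hpp.pos
  have g1 : 3 < p := by clear hK; omega
  have g2 : (4 * T) ^ 2 ≤ p := by clear hK; omega
  have g3 : 14 * (4 * T) ^ 4 < p := by clear hK; omega
  have g4 : U ≤ p := by clear hK; omega
  have g5 : p₀ < p := by clear hK; omega
  have h1 := sum_sum_norm_gowersAvg (p := p) g1 T hT1 g2 g3
  rw [← hK] at h1
  clear hK hpge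
  have h2 := sum_count (p := p)
  set lam : ZMod p → ℝ := fun B => ((p : ℝ) ^ 2)⁻¹ * ∑ x : ZMod p, ∑ y : ZMod p,
      if ∀ j, Cut B (pt x y j) then (1 : ℝ) else 0 with hlam
  have hlam0 : ∀ B, 0 ≤ lam B := by
    intro B
    simp only [hlam]
    refine mul_nonneg (by positivity) (Finset.sum_nonneg fun x _ => Finset.sum_nonneg fun y _ => ?_)
    split_ifs <;> norm_num
  have hlam1 : ∀ B, lam B ≤ 1 := by
    intro B
    simp only [hlam]
    calc _ ≤ ((p : ℝ) ^ 2)⁻¹ * ∑ x : ZMod p, ∑ y : ZMod p, (1 : ℝ) := by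
          gcongr with x _ y _
          split_ifs <;> norm_num
      _ = 1 := by
          simp only [sum_const, card_univ, ZMod.card, nsmul_eq_mul]
          field_simp
  have h3 : ∀ (B : ZMod p) (A : ZMod (p ^ 2)),
      lam B ≤ c / 2 + ‖gowersAvg p 4 (gfun A B 4)‖ / δ ^ 16 := by
    intro B A
    by_cases hG : ‖gowersAvg p 4 (gfun A B 4)‖ < δ ^ 16
    · have h4 : gowersNorm p (3 + 1) (gfun A B 4) < δ := by
        unfold gowersNorm
        have h5 : δ = (δ ^ 16) ^ ((1 : ℝ) / 2 ^ (3 + 1)) := by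
          rw [← Real.rpow_natCast δ 16, ← Real.rpow_mul hδ.le]
          norm_num
        rw [h5]
        exact Real.rpow_lt_rpow (norm_nonneg _) hG (by positivity)
      have h5 := hmain p g5 (gfun A B) (norm_gfun_le A B) h4
      rw [countOp_gfun, Complex.norm_real, Real.norm_of_nonneg (hlam0 B)] at h5
      have : 0 ≤ ‖gowersAvg p 4 (gfun A B 4)‖ / δ ^ 16 := by positivity
      linarith
    · have : 1 ≤ ‖gowersAvg p 4 (gfun A B 4)‖ / δ ^ 16 := by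
        rw [le_div_iff₀ (by positivity), one_mul]
        exact not_lt.1 hG
      linarith [hlam1 B]
  have h4 : ∑ B : ZMod p, ∑ _A : ZMod (p ^ 2), lam B ≤
      ∑ B : ZMod p, ∑ A : ZMod (p ^ 2), (c / 2 + ‖gowersAvg p 4 (gfun A B 4)‖ / δ ^ 16) :=
    Finset.sum_le_sum fun B _ => Finset.sum_le_sum fun A _ => h3 B A
  simp only [sum_add_distrib, sum_const, card_univ, ZMod.card, nsmul_eq_mul, ← Finset.sum_div,
    ← Finset.mul_sum, Nat.cast_pow] at h4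
  have h5 : (1 : ℝ) / T < η := by
    rw [div_lt_iff₀ hT0]
    rw [div_lt_iff₀ hη0] at hT
    linarith
  have h6 : (4 : ℝ) * K / p < η := by
    rw [div_lt_iff₀ hp]
    rw [div_lt_iff₀ hη0] at hU
    have : (U : ℝ) ≤ p := by exact_mod_cast g4
    nlinarith
  have h7 : (∑ B : ZMod p, ∑ A : ZMod (p ^ 2), ‖gowersAvg p 4 (gfun A B 4)‖) / δ ^ 16 <
      (p : ℝ) ^ 3 * (c / 2) := by
    rw [div_lt_iff₀ (by positivity)]
    refine lt_of_le_of_lt h1 ?_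
    have : (p : ℝ) ^ 3 * (c / 2) * δ ^ 16 = (p : ℝ) ^ 3 * (η + η) := by rw [hη]; ring
    rw [this]
    gcongr
  have h8 : (p : ℝ) ^ 2 * (p * c) ≤ (p : ℝ) ^ 2 * ∑ B, lam B := by
    apply mul_le_mul_of_nonneg_left _ (by positivity)
    rw [hc, mul_one_div]; exact h2
  nlinarith

theorem star_succ {m : ℕ} {P : Fin m → Polynomial ℤ} {i : Fin (m + 1)} {s t : ℕ} (hst : s ≤ t)
    (h : Star P i s) : Star P i t := by
  intro ε hε
  obtain ⟨δ, hδ, p₀, h⟩ := h ε hε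
  refine ⟨δ, hδ, p₀, fun p _ hp g hg hn => h p hp g hg (lt_of_le_of_lt ?_ hn)⟩
  exact gowersNorm_mono p (by omega) _

theorem not_star {s : ℕ} (hs : s ≤ 3) : ¬ Star exP 4 s :=
  fun h => not_star_three (star_succ hs h)

end Pool.Agent.Work.MP_31941f_co
end
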